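import Pool.Agent.P.MP_08fd93_co.FW.T4
import Pool.Agent.P.MP_08fd93_co.FP.P0
import Pool.Agent.P.MP_08fd93_co.FE.LZS

/-! Depth two, two anchored neighbours of the root, one of them on the first row. -/

set_option autoImplicit false

namespace Pool.Agent.P.MP_08fd93_co.FS2

open OV FZ FP2 FW

variable {J : Type} {G : TD J} {v z u p q L R : Vx J} {g : Vx J → ℤ}

/-- every foot of the neck is an anchor of the frame -/
theorem tr_foot (h : PF G v z g L R) (hq : q ∈ G.L 0) (e : G.Γ.Adj z q) : TR G.Γ G.η v z q g :=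
  let ⟨_, T⟩ := h.rt
  have a := h.foot hq e
  ⟨T.toSl, T.vz, e, a.pv, T.ht, TR.anc_g T a, T.nb⟩

/-- a long neck and an anchored neighbour of the root on the first row -/
theorem long_row [Fintype J] (lz : FE.S_LongZ) (hN : NJ G.Γ Set.univ) (h : PF G v z g L R)
    (l : G.ρ (G.xl z) + 1 < G.ρ (G.xr z)) (e : G.Γ.Adj v u) (hu : u ∈ G.L 1) (hp : p ∈ G.L 0)
    (up : G.Γ.Adj u p) : ∃ c, Col1 G.Γ ∅ c := by
  obtain ⟨⟨a1, a2⟩, ⟨b1, b2⟩, -⟩ := h.feet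
  obtain ⟨_, T⟩ := h.rt
  have k := T.l_par h.uw (j := 1) (h.eL 1 ▸ hu) (h.eL 0 ▸ hp)
  refine lz J G.Γ G.η v z _ _ u g hN ⟨tr_foot h a1 a2, tr_foot h b1 b2, fun c => ?_, fun c => ?_⟩ e
    ⟨p, up, k.1, k.2⟩ (Or.inl (h.eL 1 ▸ hu))
  · rw [c] at l
    omega
  · have := (h.rows.adj_iff a1 b1).1 c
    omega

theorem c2l [Fintype J] (g1 : FP.S_G1) (h : PF G v z g L R)
    (s : G.ρ (G.xr z) ≤ G.ρ (G.xl z) + 1) (e : G.Γ.Adj v u) (hu : u ∈ G.L 1) (hp : p ∈ G.L 0)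
    (up : G.Γ.Adj u p) (lt : G.ρ p < G.ρ (G.xl z))
    (pa : ∀ w, G.Γ.Adj v w → G.Γ.Adj w (G.xr z) → w = z ∨ w = u) :
    ∃ c, Col1 G.Γ ∅ c := by
  obtain ⟨_, T⟩ := h.rt
  have k := T.l_par h.uw (j := 1) (h.eL 1 ▸ hu) (h.eL 0 ▸ hp)
  have A := FY.an2_upa T h.an2 up k.1 k.2
  have H := FY.fr2_chg h.fr T h.an2 A
  obtain ⟨L', R', h'⟩ := pf_ex (G := FY.chgT G (FR.upa G.an u p)) T A H
  have ea : (FY.chgT G (FR.upa G.an u p)).an u = p := FR.upa_self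
  obtain ⟨la, lb, lc, ld, Q⟩ := tq_ex H T A s
  have xle := h.xle
  obtain rfl : u = L' := (h'.row_nb' hu e hp up).resolve_right fun c => by
    have : G.ρ (G.xr z) ≤ G.ρ p := h'.ftR hp (c ▸ up)
    omega
  obtain rfl : la = u := h'.eqL Q.ha.1.1 Q.ha.2 fun c => Q.ha.1.2.2 (c.trans Q.ha.2.symm)
  obtain ⟨φ, hφ⟩ := FK.ph_ex Q.st.lay fun j => ⟨_, Q.st.lay.l_mem j 0, Q.st.pr _⟩
  refine g1 J (FY.chgT G (FR.upa G.an la p)) φ v z la lb lc ld Q T.toSl hφ ⟨⟨⟨h'.anLV e, ?_, ?_⟩, Or.inl e.symm,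
    fun s s' i a m => ?_⟩, Or.inl e.symm⟩
  · rw [ea]
    exact h'.tf.l_nv hp
  · rw [ea]
    exact lt
  obtain ⟨w, w1, w2, w3⟩ := h'.hubR i a h'.feet.2.1.1 m
  obtain ⟨n1, n2, -⟩ := h'.rows.nx_mem h'.R1
  have := h'.lt
  rcases pa w w1 w2 with rfl | rfl <;> rcases w3 with c | c
  · exact h'.tf.l_nv n1 (c ▸ h'.zV)
  · exact (h'.im_s h'.R1 c).2 h'.zV
  · rw [← c] at n2
    omega
  · exact (h'.im_s h'.R1 c).1.2 (Or.inl hu)

/-- The root has two anchored neighbours: the neck `z` and the vertex `u` of the first row. -/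
theorem c2a [Fintype J] (g1 : FP.S_G1) (lz : FE.S_LongZ) (hN : NJ G.Γ Set.univ)
    (h : PF G v z g L R) (e : G.Γ.Adj v u) (hu : u ∈ G.L 1) (hp : p ∈ G.L 0) (up : G.Γ.Adj u p)
    (zp : ¬ G.Γ.Adj z p)
    (pa : ∀ w, G.Γ.Adj v w → ∀ y ∈ G.L 0, G.Γ.Adj w y → G.Γ.Adj z y → w = z ∨ w = u) :
    ∃ c, Col1 G.Γ ∅ c := by
  by_cases l : G.ρ (G.xl z) + 1 < G.ρ (G.xr z)
  · exact long_row lz hN h l e hu hp up
  obtain ⟨⟨a1, a2⟩, ⟨b1, b2⟩, -⟩ := h.feet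
  rcases h.row_nb' hu e hp up with rfl | rfl
  · exact c2l g1 h (by omega) e hu hp up (lt_of_le_of_ne (h.ftL hp up) fun c =>
      zp (h.rows.inj hp a1 c ▸ a2)) fun w a b => pa w a _ b1 b b2
  · obtain ⟨_, T⟩ := h.rt
    obtain ⟨L', R', h'⟩ := pf_ex (G := FY.mirT G) T h.an2 (FY.fr2_mir h.fr)
    have := lt_of_le_of_ne (h.ftR hp up) fun c => zp (h.rows.inj b1 hp c ▸ b2)
    exact c2l (G := FY.mirT G) g1 h' (show -G.ρ (G.xl z) ≤ -G.ρ (G.xr z) + 1 by omega) e hu hp up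
      (show -G.ρ p < -G.ρ (G.xr z) by omega) fun w a b => pa w a _ a1 b a2

end Pool.Agent.P.MP_08fd93_co.FS2
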