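import Pool.Agent.P.MP_08fd93_co.FS2.HH0
import Pool.Agent.P.MP_08fd93_co.FK.K6

/-! Two flows around one period give a plan for a spike. -/

set_option autoImplicit false

namespace Pool.Agent.P.MP_08fd93_co.FS2

open OV FN FK FL FZ FA PkPrtP

variable {J : Type} {F : FD J} {X : XD J} {Pr : Set (Vx J)} {φ : Vx J → Vx J} {b : ℤ × ℤ}
  {s p t : ℕ → Vx J} {e : Vx J}

/-- The orbits of the sources, the sinks and the neutral pins. -/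
def EC (q : ℤ) (s p t : ℕ → Vx J) : EJ J := ⟨OJ q s, OJ q t, OJ q p, ∅⟩

theorem nk_onto {q : ℤ} {k : ℕ} (l : (k : ℤ) < q) : ∃ i : ℕ, (i : ℤ) < q ∧ nk q i = k := by
  rcases k with _ | k
  · obtain ⟨m, hm⟩ : ∃ m : ℕ, q = m + 1 := ⟨(q - 1).toNat, by omega⟩
    exact ⟨m, by omega, nk_b (by omega)⟩
  · exact ⟨k, by omega, nk_a (by omega)⟩

theorem CY.ne {q : ℤ} (C : CY F φ q s p t) {k : ℕ} (l : (k : ℤ) < q) :
    (s k).1 ≠ (p k).1 ∧ (s k).1 ≠ (t k).1 := by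
  obtain ⟨i, a, rfl⟩ := nk_onto l
  exact ⟨(C.op i a).1, (C.op i a).2.1⟩

section

variable (H : LB F X Pr φ b) (C : CY F φ (F.η b) s p t)
include H C

theorem CY.rep {g : Vx J} (m : g.1 ∈ (EC (F.η b) s p t).Pn) : ∃ k : ℕ, (k : ℤ) < F.η b ∧
    Lv F (F.η b) k g ∧ (g.1 = (s k).1 ∨ g.1 = (p k).1) := by
  rcases m with ⟨k, l, e⟩ | ⟨k, l, e⟩
  exacts [⟨k, l, H.lv_orb (C.ls k l) e, Or.inl e⟩, ⟨k, l, H.lv_orb (C.lp k l) e, Or.inr e⟩]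

theorem CY.dis : ∀ i ∈ (EC (F.η b) s p t).Sr, i ∉ (EC (F.η b) s p t).Sk ∧
    i ∉ (EC (F.η b) s p t).Ps := by
  rintro i ⟨k, l, rfl⟩
  constructor
  · rintro ⟨k', l', e⟩
    obtain rfl := H.lv_eq (C.ls k l) (C.lt k' l') e l l'
    exact (C.ne l).2 e
  · rintro ⟨k', l', e⟩
    obtain rfl := H.lv_eq (C.ls k l) (C.lp k' l') e l l'
    exact (C.ne l).1 e

theorem CY.snk (j : ℤ) : ∃ m ∈ F.L j, m.1 ∈ (EC (F.η b) s p t).Sk := by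
  obtain ⟨k, l, d⟩ := H.lv_of j
  obtain ⟨y, hy, e⟩ := H.lv_ex (C.lt k l) d
  exact ⟨y, hy, k, l, e⟩

theorem CY.alt (j : ℤ) : ∀ x ∈ F.L j, ∀ y ∈ F.L j, x.1 ∈ (EC (F.η b) s p t).Sk →
    y.1 ∈ (EC (F.η b) s p t).Sk → F.ρ x < F.ρ y →
    ∃ g ∈ F.L j, g.1 ∈ (EC (F.η b) s p t).Sr ∧ F.ρ x < F.ρ g ∧ F.ρ g < F.ρ y := by
  rintro x hx y hy ⟨k, l, e⟩ ⟨k', l', e'⟩ lt
  have hF := H.lay
  have a := H.lv_orb (C.lt k l) e
  obtain rfl := lv_uni a (H.lv_orb (C.lt k' l') e') ((hF.lf _ _ hx).trans (hF.lf _ _ hy).symm) l l'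
  obtain ⟨g, hg, e1⟩ := H.lv_ex (C.ls k l) (j := j) (hF.lf _ _ hx ▸ a.2)
  obtain ⟨z, hz, e2, k1⟩ := H.btw hx hy hg (e.trans e'.symm)
    (fun o => (C.ne l).2 (e1.symm.trans (o.trans e))) lt
  exact ⟨z, hz, ⟨k, l, e2.trans e1⟩, k1⟩

/-- the pins under an edge -/
theorem CY.und : (∀ y ∈ F.LA, y.1 ∈ (EC (F.η b) s p t).Pn → φ y ≠ e) ∨
    (∃ g, (∀ y ∈ F.LA, y.1 ∈ (EC (F.η b) s p t).Pn → φ y = e → y = g) ∧
      (e.1 ∈ (EC (F.η b) s p t).Sk ∨ e.1 ∈ (EC (F.η b) s p t).Ps)) ∨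
    ∃ g ∈ F.LA, ∃ g' ∈ F.LA, φ g = e ∧ φ g' = e ∧
      (∀ y ∈ F.LA, y.1 ∈ (EC (F.η b) s p t).Pn → φ y = e → y = g ∨ y = g') ∧
      e.1 ∈ (EC (F.η b) s p t).Sk ∧ (e.1 ∈ (EC (F.η b) s p t).Ps ∨
        ((∃ x ∈ F.LA, x.1 ∈ (EC (F.η b) s p t).Pn ∧ F.nx x = e) ∧
          (F.nx e).1 ∈ (EC (F.η b) s p t).Pn)) := by
  have hF := H.lay
  have b2 := H.b2
  refine or_iff_not_imp_left.2 fun c => ?_
  simp only [not_forall, not_not] at c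
  obtain ⟨g, g1, g2, g3⟩ := c
  obtain ⟨k, l, lv, o⟩ := C.rep H g2
  have l' := nk_lt (show 0 < F.η b by omega) k
  have op := C.op k l
  have all : ∀ y ∈ F.LA, y.1 ∈ (EC (F.η b) s p t).Pn → φ y = e →
      y.1 = (s k).1 ∨ y.1 = (p k).1 := fun y y1 y2 y3 => by
    obtain ⟨k', m, lv', o'⟩ := C.rep H y2
    have a := H.ph.lev hF y1
    have a' := H.ph.lev hF g1
    rw [y3] at a
    rw [g3] at a'
    obtain rfl := lv_uni lv lv' (by omega) l m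
    exact o'
  have fs : ∀ y ∈ F.LA, ∀ x, φ y = e → y.1 = x.1 → (φ x).1 = e.1 := fun y y1 x y3 o =>
    (H.ph.fst y1 o).symm.trans (congrArg Prod.fst y3)
  by_cases one : ∀ y ∈ F.LA, y.1 ∈ (EC (F.η b) s p t).Pn → φ y = e → y = g
  · refine Or.inl ⟨g, one, ?_⟩
    rcases o with o | o <;> have a := (fs g g1 _ g3 o).symm <;> rcases op.2.2 with m | m | m
    exacts [Or.inr ⟨_, l', a.trans m.1⟩, Or.inl ⟨_, l', a.trans m.2⟩, Or.inl ⟨_, l', a.trans m.1⟩,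
      Or.inl ⟨_, l', a.trans m.2⟩, Or.inr ⟨_, l', a.trans m.1⟩, Or.inl ⟨_, l', a.trans m.2.1⟩]
  right
  simp only [not_forall] at one
  obtain ⟨g', h1, h2, h3, ne⟩ := one
  have ne' : g'.1 ≠ g.1 := fun c => ne (H.ph.inj1 h1 c (h3.trans g3.symm))
  have o' := all g' h1 h2 h3
  have two : ∀ y ∈ F.LA, y.1 ∈ (EC (F.η b) s p t).Pn → φ y = e → y = g ∨ y = g' :=
    fun y y1 y2 y3 => by
      have : y.1 = g.1 ∨ y.1 = g'.1 := by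
        rcases all y y1 y2 y3 with a | a <;> rcases o with o | o <;> rcases o' with o' | o'
        exacts [Or.inl (a.trans o.symm), Or.inl (a.trans o.symm), Or.inr (a.trans o'.symm),
          absurd (o'.trans o.symm) ne', absurd (o'.trans o.symm) ne', Or.inr (a.trans o'.symm),
          Or.inl (a.trans o.symm), Or.inl (a.trans o.symm)]
      exact this.imp (fun a => H.ph.inj1 y1 a (y3.trans g3.symm))
        fun a => H.ph.inj1 y1 a (y3.trans h3.symm)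
  obtain ⟨a, a'⟩ : e.1 = (φ (s k)).1 ∧ e.1 = (φ (p k)).1 := by
    rcases o with o | o <;> rcases o' with o' | o'
    exacts [absurd (o'.trans o.symm) ne', ⟨(fs g g1 _ g3 o).symm, (fs g' h1 _ h3 o').symm⟩,
      ⟨(fs g' h1 _ h3 o').symm, (fs g g1 _ g3 o).symm⟩, absurd (o'.trans o.symm) ne']
  refine ⟨g, g1, g', h1, g3, h3, two, ?_⟩
  rcases op.2.2 with m | m | ⟨m, -, m1, m2⟩
  · exact ⟨⟨_, l', a'.trans m.2⟩, Or.inl ⟨_, l', a.trans m.1⟩⟩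
  · exact ⟨⟨_, l', a.trans m.2⟩, Or.inl ⟨_, l', a'.trans m.1⟩⟩
  have e1 := FK.eq_tr (a.trans m).symm
  have ls := (C.ls _ l').1
  refine ⟨⟨_, l', a.trans m⟩, Or.inr ⟨⟨_, (hF.la_tr (e.2 - (t (nk (F.η b) k)).2) _).2 ls,
    Or.inl ⟨_, l', rfl⟩, ?_⟩, Or.inr ⟨_, l', ?_⟩⟩⟩
  · rw [hF.nx_tr _ ls, m1]
    exact e1.symm
  · rw [e1, hF.nx_tr _ (C.lt _ l').1, m2]
    rfl

end

variable {G : VD J} {v l r g g' τ x : Vx J} {E : EJ J}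

theorem vis_l (hx : x ∈ G.LA) (m : x.1 ∈ E.Pn) : x ∈ Vis G (P0 E) :=
  ⟨0, x, Or.inl ⟨x, m, hx, Or.inl rfl⟩, rfl⟩

theorem vis_r (hx : x ∈ G.LA) (m : x.1 ∈ E.Pn) : G.nx x ∈ Vis G (P0 E) :=
  ⟨0, _, Or.inl ⟨x, m, hx, Or.inr rfl⟩, rfl⟩

theorem pe_und (h : SR G v l r) (hφ : PH (FL G) G.Pr φ) (hg : g ∈ G.LA) :
    s(g, G.nx g) ∈ PE G.Γ (Bc G (φ g)).X :=
  (h.sv.und_iff hφ (hφ.la h.sv.lay hg) hg).2 ⟨rfl, h.nc g⟩

/-- The plan of two flows: the top `τ` carries the strict edge `fe` at the root. -/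
theorem CY.sk (h : SR G v l r) (H : LB (FL G) (XL G) G.Pr φ b)
    (C : CY (FL G) φ (G.η b) s p t) {pL pR : Prop} {fe : Sym2 (Vx J)} (hg : g ∈ G.L 0)
    (eg : φ g = τ) (ne : (φ g').1 ≠ τ.1)
    (p0 : ((s 0).1 = g.1 ∧ (p 0).1 = g'.1) ∨ ((s 0).1 = g'.1 ∧ (p 0).1 = g.1))
    (hL : pL → ∀ e, IsL G e → e.1 = τ.1 ∧
      (e = τ → s(G.an (G.nx e), G.xl (G.an (G.nx e))) = fe))
    (hR : pR → ∀ e, IsR G e → e.1 = τ.1 ∧ (e = τ → s(G.an e, G.xr (G.an e)) = fe))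
    (md : pL ∨ pR) (vL : pL ∨ g' = pv (FL G) (G.xl v)) (vR : pR ∨ g' = G.xl v)
    (pe : fe ∈ PE G.Γ (Bc G τ).X)
    (sp : (τ.1 = (p 1).1 ∧ Span G τ fe s(g, G.nx g)) ∨ (τ.1 = (t 1).1 ∧
      ∃ x ∈ G.LA, G.nx x = τ ∧ ((x.1 = (s 1).1 ∧ (G.nx τ).1 = (p 1).1) ∨
        (x.1 = (p 1).1 ∧ (G.nx τ).1 = (s 1).1)))) :
    SK G φ v (EC (G.η b) s p t) v.1 pL pR := by
  have hF := H.lay
  have hφ := H.ph
  have b2 : 2 ≤ G.η b := H.b2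
  have l0 : ((0 : ℕ) : ℤ) < G.η b := by omega
  have l1 : ((1 : ℕ) : ℤ) < G.η b := by omega
  have gl : g ∈ G.LA := hF.la hg
  have τl : τ ∈ G.LA := eg ▸ hφ.la hF gl
  have pg : g'.1 ∈ (EC (G.η b) s p t).Pn :=
    p0.elim (fun o => Or.inr ⟨0, l0, o.2.symm⟩) fun o => Or.inl ⟨0, l0, o.1.symm⟩
  refine ⟨CY.dis (F := FL G) H C, fun j => Or.inl (CY.snk (F := FL G) H C j),
    CY.alt (F := FL G) H C, md, vL.imp_right fun o => Or.inr (by rw [← o]; exact pg),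
    vR.imp_right fun o => Or.inr (by rw [← o]; exact pg), fun e he => ?_⟩
  by_cases c : e.1 = τ.1
  · refine Or.inr (Or.inr (Or.inr ⟨τ.2 - e.2, ?_⟩))
    rw [← FK.eq_tr c]
    have sub : SS G (P0 (EC (G.η b) s p t)) pL pR τ ⊆ {fe, s(g, G.nx g)} := by
      refine h.sv.ss_sub hφ τl (fun y y2 y1 y3 _ => Or.inr ?_)
        (fun o i => Or.inl ((hL o τ i).2 rfl)) fun o i => Or.inl ((hR o τ i).2 rfl)
      obtain ⟨k, m, lv, o⟩ := CY.rep (F := FL G) H C y2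
      have a := hφ.lev hF y1
      have a' := hφ.lev hF gl
      rw [y3] at a
      rw [eg] at a'
      obtain rfl := lv_uni (H.lv_l (k := 0) hg) lv (by omega) l0 m
      have n : y.1 ≠ g'.1 := fun o => ne ((hφ.fst y1 o).symm.trans (congrArg Prod.fst y3))
      have : y.1 = g.1 := by
        rcases o with o | o <;> rcases p0 with q | q
        exacts [o.trans q.1, absurd (o.trans q.1) n, absurd (o.trans q.2) n, o.trans q.2]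
      rw [hφ.inj1 y1 this (y3.trans eg.symm)]
      rfl
    rcases sp with ⟨a, sp⟩ | ⟨a, x, x1, x2, o⟩
    · exact Or.inr (Or.inr (Or.inl ⟨Or.inr ⟨1, l1, a⟩, Or.inl ⟨0, Or.inl (Or.inr ⟨1, l1, a⟩)⟩,
        _, _, sub, sp⟩))
    · refine Or.inr (Or.inr (Or.inr ⟨⟨_, pe, _, eg ▸ pe_und h hφ gl, sub⟩,
        Or.inl ⟨⟨1, l1, a⟩, Or.inr ⟨x2 ▸ vis_r x1 ?_, vis_l (nx_la hF τl) ?_⟩⟩⟩))
      exacts [o.elim (fun o => Or.inl ⟨1, l1, o.1⟩) fun o => Or.inr ⟨1, l1, o.1⟩,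
        o.elim (fun o => Or.inr ⟨1, l1, o.2⟩) fun o => Or.inl ⟨1, l1, o.2⟩]
  have sub : ∀ T : Set (Sym2 (Vx J)), (∀ y ∈ G.LA, y.1 ∈ (EC (G.η b) s p t).Pn → φ y = e →
      s(y, G.nx y) ∈ T) → SS G (P0 (EC (G.η b) s p t)) pL pR e ⊆ T := fun T k =>
    h.sv.ss_sub hφ he (fun y y2 y1 y3 _ => k y y1 y2 y3) (fun o i => absurd (hL o e i).1 c)
      fun o i => absurd (hR o e i).1 c
  rcases CY.und (F := FL G) H C (e := e) with k | ⟨y, k, m⟩ | ⟨y, y1, z, z1, y2, z2, k, m, m'⟩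
  · exact Or.inl (sub _ fun y a b c => absurd c (k y a b))
  · exact Or.inr (Or.inl ⟨s(y, G.nx y), sub _ fun _ a b c => by rw [k _ a b c]; rfl, m⟩)
  have sb : SS G (P0 (EC (G.η b) s p t)) pL pR e ⊆ {s(y, G.nx y), s(z, G.nx z)} :=
    sub _ fun _ a b c => (k _ a b c).imp (fun o => by rw [o]) fun o => by rw [o]; rfl
  rcases m' with m' | ⟨⟨x, x1, x2, x3⟩, m'⟩
  · exact Or.inr (Or.inr (Or.inl ⟨_, _, sb, m, m'⟩))
  refine Or.inr (Or.inr (Or.inr ⟨0, ?_⟩))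
  rw [tr_zero]
  exact Or.inr (Or.inr (Or.inr ⟨⟨_, y2 ▸ pe_und h hφ y1, _, z2 ▸ pe_und h hφ z1, sb⟩,
    Or.inl ⟨m, Or.inr ⟨x3 ▸ vis_r x1 x2, vis_l (nx_la hF he) m'⟩⟩⟩))

/-- The left edge at the root is strict, the root pays the right one. -/
theorem CY.skL (h : SR G v l r) (H : LB (FL G) (XL G) G.Pr φ b)
    (C : CY (FL G) φ (G.η b) s p t) (hg : g ∈ G.L 0) (eg : φ g = l) (ne : (φ (G.xl v)).1 ≠ l.1)
    (p0 : ((s 0).1 = g.1 ∧ (p 0).1 = (G.xl v).1) ∨ ((s 0).1 = (G.xl v).1 ∧ (p 0).1 = g.1))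
    (sp : (l.1 = (p 1).1 ∧ Span G l s(v, G.xl v) s(g, G.nx g)) ∨ (l.1 = (t 1).1 ∧
      ∃ x ∈ G.LA, G.nx x = l ∧ ((x.1 = (s 1).1 ∧ (G.nx l).1 = (p 1).1) ∨
        (x.1 = (p 1).1 ∧ (G.nx l).1 = (s 1).1)))) :
    SK G φ v (EC (G.η b) s p t) v.1 True False := by
  refine C.sk h H hg eg ne p0 (fun _ e i => ⟨?_, ?_⟩) False.elim (Or.inl trivial)
    (Or.inl trivial) (Or.inr rfl) ?_ sp
  · obtain ⟨a, rfl, -⟩ := h.isL i
    rfl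
  · rintro rfl
    rw [h.hl.2]
  · have := (h.sv.ssL (P := ∅) (pL := True) (pR := False) h.hl.1 trivial).1
    rwa [h.hl.2] at this

/-- The right edge at the root is strict, the root pays the left one. -/
theorem CY.skR (h : SR G v l r) (H : LB (FL G) (XL G) G.Pr φ b)
    (C : CY (FL G) φ (G.η b) s p t) (hg : g ∈ G.L 0) (eg : φ g = r)
    (ne : (φ (pv (FL G) (G.xl v))).1 ≠ r.1)
    (p0 : ((s 0).1 = g.1 ∧ (p 0).1 = (pv (FL G) (G.xl v)).1) ∨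
      ((s 0).1 = (pv (FL G) (G.xl v)).1 ∧ (p 0).1 = g.1))
    (sp : (r.1 = (p 1).1 ∧ Span G r s(v, G.xl v) s(g, G.nx g)) ∨ (r.1 = (t 1).1 ∧
      ∃ x ∈ G.LA, G.nx x = r ∧ ((x.1 = (s 1).1 ∧ (G.nx r).1 = (p 1).1) ∨
        (x.1 = (p 1).1 ∧ (G.nx r).1 = (s 1).1)))) :
    SK G φ v (EC (G.η b) s p t) v.1 False True := by
  refine C.sk h H hg eg ne p0 False.elim (fun _ e i => ⟨?_, ?_⟩)
    (Or.inr trivial) (Or.inr rfl) (Or.inl trivial) ?_ sp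
  · obtain ⟨a, rfl, -⟩ := h.isR i
    rfl
  · rintro rfl
    rw [h.hr.2, h.sp]
  · have := (h.sv.ssR (P := ∅) (pL := False) (pR := True) h.hr.1 trivial).1
    rwa [h.hr.2, h.sp] at this

end Pool.Agent.P.MP_08fd93_co.FS2
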