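import Pool.Agent.P.MP_08fd93_co.FS2.HG
import Pool.Agent.P.MP_08fd93_co.FS2.HH1

/-! Hubs on both sides of a spike: the two side edges are neighbours. -/

set_option autoImplicit false

namespace Pool.Agent.P.MP_08fd93_co.FS2

open OV FN FK FL FZ FA

variable {J : Type} {F : FD J} {X : XD J} {Pr : Set (Vx J)} {φ : Vx J → Vx J} {b : ℤ × ℤ}

/-- Two flows from a given row one; the last row lies under `d` and `g1`. -/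
theorem tower2 (H : LB F X Pr φ b) {d g1 g2 x : Vx J} (hd : d ∈ F.L 0) (h1 : g1 ∈ F.L 0)
    (h2 : g2 ∈ F.L 0) (n1 : g1.1 ≠ d.1) (n2 : g2.1 ≠ d.1) (n3 : g2.1 ≠ g1.1)
    (e : (φ g2).1 = (φ g1).1) (hx : x ∈ F.L 1) (x1 : x.1 ≠ (φ d).1) (x2 : x.1 ≠ (φ g1).1)
    (w : ∀ y ∈ F.L (-1), (φ y).1 = d.1 ∨ (φ y).1 = g1.1) :
    ∃ s p t g, CY F φ (F.η b) s p t ∧ (g = g1 ∨ g = g2) ∧
      ((s 0 = g ∧ p 0 = d) ∨ (s 0 = d ∧ p 0 = g)) ∧ s 1 = x ∧ p 1 = φ d ∧ t 1 = φ g1 := by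
  have b2 := H.b2
  have hF := H.lay
  obtain ⟨m, hm⟩ : ∃ m : ℕ, F.η b = m + 2 := ⟨(F.η b - 2).toNat, by omega⟩
  obtain ⟨g, e0, hg⟩ := seq_ex (α := Vx J × Vx J × Vx J)
    (fun i z => z.1 ∈ F.L (i + 1 : ℕ) ∧ z.2.1 ∈ F.L (i + 1 : ℕ) ∧ z.2.2 ∈ F.L (i + 1 : ℕ))
    (fun x y => Opt F (φ x.1) (φ x.2.1) y.1 y.2.1 y.2.2) (x, φ d, φ g1)
    ⟨hx, H.up (k := 0) hd, H.up (k := 0) h1⟩ fun i z hz => by
      obtain ⟨y, hy, y1, y2⟩ := H.off (i + 1 + 1 : ℕ) (φ z.1) (φ z.2.1)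
      exact ⟨(y, φ z.1, φ z.2.1), ⟨hy, H.up hz.1, H.up hz.2.1⟩, opt_l y1 y2⟩
  obtain ⟨⟨s1, s2, -⟩, -⟩ := hg m
  have lc : ∀ x ∈ F.L (m + 1 : ℕ), Lv F (F.η b) 0 (φ x) ∧ ((φ x).1 = d.1 ∨ (φ x).1 = g1.1) :=
    fun x hx => by
      have := H.lv_phi (H.lv_l hx) (by push_cast; omega)
      rw [nk_b (by push_cast; omega)] at this
      have k := w _ (H.last' hm hx)
      rw [H.ph.eqv _ _ (hF.la hx)] at k
      exact ⟨this, k⟩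
  obtain ⟨s, p, t, y, lt, gy, sp, o⟩ : ∃ s p t y, Lv F (F.η b) 0 t ∧ (y = g1 ∨ y = g2) ∧
      ((s = y ∧ p = d) ∨ (s = d ∧ p = y)) ∧ Opt F (φ (g m).1) (φ (g m).2.1) s p t := by
    obtain ⟨l1, a | a⟩ := lc _ s1 <;> obtain ⟨l2, c | c⟩ := lc _ s2
    exacts [⟨g1, d, _, g1, l2, Or.inl rfl, Or.inl ⟨rfl, rfl⟩, n1, c ▸ n1, Or.inl ⟨a, rfl⟩⟩,
      ⟨g2, d, _, g2, l2, Or.inr rfl, Or.inl ⟨rfl, rfl⟩, n2, c ▸ n3, Or.inl ⟨a, rfl⟩⟩,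
      ⟨g2, d, _, g2, l1, Or.inr rfl, Or.inl ⟨rfl, rfl⟩, n2, a ▸ n3, Or.inr (Or.inl ⟨c, rfl⟩)⟩,
      ⟨d, g1, _, g1, l2, Or.inl rfl, Or.inr ⟨rfl, rfl⟩, n1.symm, c ▸ n1.symm, Or.inl ⟨a, rfl⟩⟩]
  have hy : y ∈ F.L 0 := gy.elim (fun a => a ▸ h1) fun a => a ▸ h2
  have ey : (φ y).1 = (φ g1).1 := gy.elim (fun a => a ▸ rfl) fun a => a ▸ e
  refine ⟨fun i => Nat.casesOn i s fun i => (g i).1, fun i => Nat.casesOn i p fun i => (g i).2.1,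
    fun i => Nat.casesOn i t fun i => (g i).2.2, y, ⟨?_, ?_, ?_, ?_⟩, gy, sp,
    congrArg (·.1) e0, congrArg (·.2.1) e0, congrArg (·.2.2) e0⟩
  · rintro (_ | i) -
    exacts [H.lv_l (k := 0) (sp.elim (fun a => a.1 ▸ hy) fun a => a.1 ▸ hd), H.lv_l (hg i).1.1]
  · rintro (_ | i) -
    exacts [H.lv_l (k := 0) (sp.elim (fun a => a.2 ▸ hd) fun a => a.2 ▸ hy), H.lv_l (hg i).1.2.1]
  · rintro (_ | i) -
    exacts [lt, H.lv_l (hg i).1.2.2]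
  · rintro (_ | i) l
    · rw [nk_a (by omega)]
      show Opt F (φ s) (φ p) (g 0).1 (g 0).2.1 (g 0).2.2
      rw [e0]
      rcases sp with ⟨rfl, rfl⟩ | ⟨rfl, rfl⟩
      exacts [⟨x1, x2, Or.inr (Or.inl ⟨rfl, ey⟩)⟩, ⟨x1, x2, Or.inl ⟨rfl, ey⟩⟩]
    · by_cases e : ((i + 1 : ℕ) : ℤ) + 1 < F.η b
      · rw [nk_a e]
        exact (hg i).2
      · rw [nk_b e]
        obtain rfl : i = m := by omega
        exact o

variable {G : VD J} {v l r : Vx J} (h : SR G v l r) (H : LB (FL G) (XL G) G.Pr φ b)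
  (el : φ (pv (FL G) (G.xl v)) = l) (er : φ (G.xl v) = r) (e : G.nx r = tr G.w l)
  (w : ∀ y ∈ G.L (-1), (φ y).1 = (G.xl v).1 ∨ (φ y).1 = (pv (FL G) (G.xl v)).1)
include h H el er e w

theorem d2L (e2 : φ (pv (FL G) (pv (FL G) (G.xl v))) = l) :
    ∃ E, SK G φ v E v.1 True False := by
  have hF := H.lay
  obtain ⟨p1, p2, -⟩ := pv_mem hF h.u0.1
  obtain ⟨q1, q2, -⟩ := pv_mem hF p1
  obtain ⟨n1, n2, -⟩ := hF.nx_mem h.l1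
  obtain ⟨a1, a2, a3⟩ := pv_mem hF h.l1
  have er' : (pv (FL G) l).1 = r.1 := (h.rows.nx_orb (hF.la a1) (hF.la h.r1)).1 (by
    rw [show G.nx (pv (FL G) l) = l from a3, e]; rfl)
  obtain ⟨s, p, t, g, C, gg, sp, s1, s2, s3⟩ := tower2 H h.u0.1 p1 q1 (pv_ne h h.u0.1)
    (near_ne H q1 h.u0.1 (by omega) (by omega)) (pv_ne h p1) (by rw [e2, el]) n1
    (by rw [er, ← er']; exact (near_ne H a1 n1 (by omega) (by omega)).symm)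
    (by rw [el]; exact nx_ne h h.l1) w
  exact ⟨_, C.skL h H (gg.elim (fun a => a ▸ p1) fun a => a ▸ q1)
    (gg.elim (fun a => a ▸ el) fun a => a ▸ e2) (by rw [er, ← er']; exact pv_ne h h.l1)
    (sp.imp (fun a => by rw [a.1, a.2]; exact ⟨rfl, rfl⟩) fun a => by rw [a.1, a.2]; exact ⟨rfl, rfl⟩)
    (Or.inr ⟨by rw [s3, el], _, hF.la a1, a3, Or.inr ⟨by rw [s2, er, er'], by rw [s1]; rfl⟩⟩)⟩

theorem d2R (e2 : φ (G.nx (G.xl v)) = r) : ∃ E, SK G φ v E v.1 False True := by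
  have hF := H.lay
  obtain ⟨p1, p2, -⟩ := pv_mem hF h.u0.1
  obtain ⟨q1, q2, -⟩ := hF.nx_mem h.u0.1
  obtain ⟨n1, n2, -⟩ := hF.nx_mem h.r1
  obtain ⟨a1, a2, a3⟩ := pv_mem hF h.r1
  have er' : (G.nx r).1 = l.1 := by rw [e]; rfl
  have nn : (pv (FL G) r).1 ≠ ((FL G).nx r).1 := near_ne H a1 n1 (by omega) (by omega)
  obtain ⟨s, p, t, g, C, gg, sp, s1, s2, s3⟩ := tower2 H p1 h.u0.1 q1 (pv_ne h h.u0.1).symm
    (near_ne H p1 q1 (by omega) (by omega)).symm (nx_ne h h.u0.1)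
    (by rw [show φ ((FL G).nx (G.xl v)) = r from e2, er]) a1
    (by rw [el, ← er']; exact nn)
    (by rw [er]; exact pv_ne h h.r1) fun y hy => (w y hy).symm
  exact ⟨_, C.skR h H (gg.elim (fun a => a ▸ h.u0.1) fun a => a ▸ q1)
    (gg.elim (fun a => a ▸ er) fun a => a ▸ e2) (by rw [el, ← er']; exact nx_ne h h.r1)
    (sp.imp (fun a => by rw [a.1, a.2]; exact ⟨rfl, rfl⟩) fun a => by rw [a.1, a.2]; exact ⟨rfl, rfl⟩)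
    (Or.inr ⟨by rw [s3, er], _, hF.la a1, a3, Or.inl ⟨by rw [s1], by rw [s2, el, er']⟩⟩)⟩

/-- The side edges are neighbours and the last row lies under the two edges at the foot. -/
theorem d2 [Fintype J] : ∃ c, Col1 G.Γ ∅ c :=
  (two_side h H.ph e).elim (fun k => let ⟨_, S⟩ := d2L h H el er e w k; S.col h H.ph)
    fun k => let ⟨_, S⟩ := d2R h H el er e w k; S.col h H.ph

end Pool.Agent.P.MP_08fd93_co.FS2
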