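import Pool.Agent.P.MP_08fd93_co.FS2.HH4
import Pool.Agent.P.MP_08fd93_co.FS2.HH5
import Pool.Agent.P.MP_08fd93_co.FI.K1

/-! A spike with hubs on both sides. -/

set_option autoImplicit false

namespace Pool.Agent.P.MP_08fd93_co.FS2

open FA

theorem hh_of : S_Free → S_HH :=
  hh_of' (fun _ _ _ _ _ _ _ h hφ _ er el k =>
      let ⟨_, B⟩ := lb_ex h.sv.lay hφ h.n3 h.rows.wp.ev
      d2 h B el er k.1 k.2.2)
    fun _ _ _ _ _ _ _ h hφ n er el k => k.1.elim
      (fun a => FI.hh_k1 h hφ n a er fun y hy => (k.2 y hy).1)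
      fun a => FI.hh_k1l h hφ n a el fun y hy => (k.2 y hy).2

end Pool.Agent.P.MP_08fd93_co.FS2
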