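import Pool.Agent.P.MP_08fd93_co.FS2.HH6
import Pool.Agent.P.MP_08fd93_co.FB.S1
import Pool.Agent.P.MP_08fd93_co.FL.S3

/-! Depth one, the root is a spike: the assembly. -/

set_option autoImplicit false

namespace Pool.Agent.P.MP_08fd93_co.FS2

theorem spike : FZ.S_Spike := FA.spike_all FA.s1p FL.s2 FZ.funF FZ.fun_of hh_of

end Pool.Agent.P.MP_08fd93_co.FS2
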