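import Pool.Agent.P.MP_08fd93_co.FS2.HH2
import Pool.Agent.P.MP_08fd93_co.FZ.U2
import Pool.Agent.P.MP_08fd93_co.FD.G4

/-! Hubs on both sides of a spike: the geometric facts. -/

set_option autoImplicit false

namespace Pool.Agent.P.MP_08fd93_co.FS2

open OV FN FK FZ FA FR FD

variable {J : Type} {G : VD J} {v l r x y : Vx J} {φ : Vx J → Vx J}

variable (h : SR G v l r)
include h

theorem ev_nk {j : ℤ} (hx : x ∈ G.L j) (e : Even j) : G.an x ∉ G.K := fun c =>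
  Int.not_even_iff_odd.2 (h.odd c) ((h.sv.vf.an_v hx (h.sv.pr _) c).2.symm ▸ e)

theorem an0 (hx : x ∈ G.L 0) : G.an x ∈ G.L (-1) ∧ G.xl (G.an x) = G.an x ∧ G.Γ.Adj x (G.an x) :=
  ⟨by simpa using h.sv.vf.an_l hx (h.sv.pr _) (ev_nk h hx Even.zero),
    (h.sv.vf.xo _ (ev_nk h hx Even.zero)).1, (h.sv.vf.aa _ _ hx (h.sv.pr _)).1⟩

/-- some child of the root is a parent -/
theorem kid2 : ∃ y ∈ G.L 2, G.an y ∈ G.L 1 ∧ G.an (G.an y) = v := by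
  have R := h.rows
  have V := h.sv.vf
  obtain ⟨n, hn⟩ := h.acy _ (R.la h.u0.1)
  induction n using Nat.strong_induction_on with
  | _ n ih =>
    rcases n with _ | n
    · exact absurd hn (ev_nk h h.u0.1 Even.zero)
    by_cases c : G.an ((FL G).an^[n] (G.xl v)) ∈ G.K
    · exact ih n (by omega) c
    rw [Function.iterate_succ_apply'] at hn
    have m := h.an_lev h.u0.1 n
    set z := (FL G).an^[n] (G.xl v)
    rw [show (FL G).an z = G.an z from (V.xo _ c).1] at hn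
    obtain ⟨a, e⟩ := h.k_tr hn
    have m1 := V.an_l m (h.sv.pr _) c
    have lv := (V.an_v m1 (h.sv.pr _) hn).2
    rw [e, R.wp.per, h.fv] at lv
    refine ⟨tr (-a) z, ?_, ?_, by rw [V.atr, V.atr, e, tr_neg]⟩
    · have := (R.uw.ltr (-a) _ _).2 m
      rwa [map_neg, show 0 - (n : ℤ) + -G.η a = 2 by omega] at this
    · have := (R.uw.ltr (-a) _ _).2 m1
      rwa [map_neg, show 0 - (n : ℤ) - 1 + -G.η a = 1 by omega, ← V.atr] at this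

variable (hφ : PH (FL G) G.Pr φ)
include hφ

theorem phi_lr : φ l ≠ φ r := fun e => by
  have V := h.sv.vf
  obtain ⟨y, y2, y1, yv⟩ := kid2 h
  obtain ⟨a1, a2, -⟩ := sv_phi h.sv hφ h.l1
  obtain ⟨-, -, b3⟩ := sv_phi h.sv hφ h.r1
  rw [← e] at b3
  have c1 := (h.sv.isL_le h.hl.1 (h.rows.la y1) (yv.trans h.hl.2.symm)).2
  have c2 := (h.sv.isR_ge h.hr.1 (h.rows.la y1) (yv.trans h.hr.2.symm)).2
  have ex := (V.xo _ (V.l_nk y1)).1
  obtain ⟨n1, n2, -⟩ := h.rows.nx_mem a1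
  by_cases c : G.ρ y ≤ G.ρ (φ l)
  · have := (V.mono' y2 (h.sv.pr _) a1 (h.sv.pr _) c).1
    rw [ex] at this
    omega
  · have := (V.mono' n1 (h.sv.pr _) y2 (h.sv.pr _) (by omega)).1
    rw [ex] at this
    omega

theorem hub_r (A : AR G) (n : ¬ HR G) :
    φ (G.xl v) = r ∧ Span G r s(v, G.xl v) s(G.xl v, G.nx (G.xl v)) := by
  obtain ⟨z, y, b⟩ := hubR_ex h.sv A h.hr.1 (fun t k => h.hr.2.symm ▸ (h.eK t).1 k) n
  have fr : G.f r = 1 := h.rows.uw.lf _ _ h.r1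
  have lo := b.lo
  have hi := b.hi
  rw [h.hr.2, h.xr] at lo
  refine ⟨sv_und h.sv hφ (j := 1) h.u0.1 h.r1 (by rw [h.hr.2]) (by omega), ?_⟩
  have := b.span h.sv h.hr.1 (g := G.xl v) (by rw [fr]; exact h.u0.1) (by rw [h.hr.2, h.xr]) lo
  rwa [h.hr.2, h.xr] at this

theorem hub_l (A : AR G) (n : ¬ HL G) : φ (pv (FL G) (G.xl v)) = l ∧
    Span G l s(v, G.xl v) s(pv (FL G) (G.xl v), G.nx (pv (FL G) (G.xl v))) := by
  obtain ⟨z, y, b⟩ := hubL_ex h.sv A h.hl.1 (fun t k => h.hl.2.symm ▸ (h.eK t).1 k) n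
  have fl : G.f l = 1 := h.rows.uw.lf _ _ h.l1
  obtain ⟨p1, p2, -⟩ := pv_mem h.sv.lay h.u0.1
  have p2 : G.ρ (pv (FL G) (G.xl v)) = G.ρ (G.xl v) - 1 := p2
  have lo := b.lo
  have hi := b.hi
  rw [h.hl.2] at hi
  rw [h.xr] at lo
  refine ⟨sv_und h.sv hφ (j := 1) p1 h.l1 (by omega) (by rw [h.hl.2]; omega), ?_⟩
  have := b.span h.sv h.hl.1 (g := pv (FL G) (G.xl v)) (by rw [fl]; exact p1) (by omega)
    (by rw [h.hl.2]; omega)
  rwa [h.hl.2] at this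

/-- the side edges fill a fibre only if they are neighbours -/
theorem fb_nx (e : φ (G.xl v) = r) (k : Fb (FL G) φ 1 l r) : G.nx r = tr G.w l := by
  have F := h.sv.lay
  obtain ⟨-, -, lt⟩ := side_lev h.sv h.hl.1 h.hr.1 h.hl.2 h.hr.2
  obtain ⟨-, -, le⟩ := side_phi h.sv hφ h.hl.1 h.hr.1 h.hl.2 h.hr.2
  rw [h.xr, e, h.fv] at le
  obtain ⟨w1, w2⟩ := F.w_mem 1 h.l1
  replace w1 : tr ((1 : ℤ) • G.w) l ∈ G.L 1 := w1
  replace w2 : G.ρ (tr ((1 : ℤ) • G.w) l) = G.ρ l + 1 * G.nn 1 := w2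
  obtain ⟨n1, n2, -⟩ := h.rows.nx_mem h.r1
  have lt' : G.ρ r < G.ρ l + G.nn 1 := lt_of_le_of_ne le fun q =>
    k.1 (by rw [h.rows.inj h.r1 w1 (by omega)]; rfl)
  rw [← one_zsmul G.w]
  refine h.rows.inj n1 w1 (by_contra fun c => ?_)
  have a := (sv_phi h.sv hφ h.l1).1
  have b := (sv_phi h.sv hφ h.r1).1
  have m1 : G.ρ (φ l) ≤ G.ρ (φ r) := hφ.mono F h.l1 h.r1 lt.le
  have m2 : G.ρ (φ r) ≤ G.ρ (φ (G.nx r)) := hφ.mono F h.r1 n1 (show G.ρ _ ≤ G.ρ _ by omega)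
  have m3 : G.ρ (φ (G.nx r)) ≤ G.ρ (φ (tr ((1 : ℤ) • G.w) l)) :=
    hφ.mono F n1 w1 (show G.ρ _ ≤ G.ρ (tr ((1 : ℤ) • G.w) l) by omega)
  have m4 : G.ρ (tr ((1 : ℤ) • G.w) (φ l)) = G.ρ (φ l) + 1 * G.nn (1 + 1) := (F.w_mem 1 a).2
  rw [hφ.eqv _ _ (F.la h.l1), m4] at m3
  obtain ⟨t, -, q⟩ := same_cls F a b k.2.1
  have q : G.ρ (φ r) = G.ρ (φ l) + t * G.nn (1 + 1) := q
  have n3 := h.n3 (1 + 1)
  have ne : G.ρ (φ l) ≠ G.ρ (φ r) := fun o => phi_lr h hφ (h.rows.inj a b o)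
  have t1 : G.nn (1 + 1) ≤ t * G.nn (1 + 1) := by
    rcases le_or_gt t 0 with o | o
    · exact absurd (le_antisymm m1 (by nlinarith)) ne
    · nlinarith
  refine k.2.2 _ n1 (fun o => ?_) (nx_ne h h.r1) ?_
  · obtain ⟨s, -, q'⟩ := same_cls F h.l1 n1 o.symm
    have q' : G.ρ (G.nx r) = G.ρ l + s * G.nn 1 := q'
    have := h.n3 1
    have : G.ρ (G.nx r) < G.ρ l + G.nn 1 := by omega
    rcases le_or_gt s 0 with o | o <;> nlinarith
  · rw [h.rows.inj (sv_phi h.sv hφ n1).1 b (by omega)]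
    exact k.2.1.symm

/-- one of the two side edges lies over two edges of the row -/
theorem two_side (e : G.nx r = tr G.w l) : φ (pv (FL G) (pv (FL G) (G.xl v))) = l ∨
    φ (G.nx (G.xl v)) = r := by
  have F := h.sv.lay
  have V := h.sv.vf
  obtain ⟨p1, p2, -⟩ := pv_mem F h.u0.1
  obtain ⟨q1, q2, -⟩ := pv_mem F p1
  have p2 : G.ρ (pv (FL G) (G.xl v)) = G.ρ (G.xl v) - 1 := p2
  have q2 : G.ρ (pv (FL G) (pv (FL G) (G.xl v))) = G.ρ (pv (FL G) (G.xl v)) - 1 := q2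
  obtain ⟨n1, n2, -⟩ := h.rows.nx_mem h.u0.1
  have f := (V.feet h.l1 (h.sv.pr _)).1
  have w : G.ρ (tr ((1 : ℤ) • G.w) (G.xl (G.an l))) = G.ρ (G.xl (G.an l)) + 1 * G.nn (1 - 1) :=
    (F.w_mem 1 f).2
  rw [one_zsmul, ← (V.xtr _ _).1, ← V.atr, ← e, sub_self] at w
  have n3 := h.n3 0
  by_cases c : G.ρ (G.xl (G.an l)) + 2 ≤ G.ρ (G.xl v)
  · exact Or.inl (sv_und h.sv hφ (j := 1) q1 h.l1 (by omega) (by rw [h.hl.2]; omega))
  · exact Or.inr (sv_und h.sv hφ (j := 1) n1 h.r1 (by rw [h.hr.2]; omega) (by omega))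

/-- the fibre of an edge of the row zero in terms of the parents of its ends -/
theorem fib0 (hx : x ∈ G.L 0) : (G.an x ≠ G.an (G.nx x) → φ (G.an x) = x) ∧
    (G.an x = G.an (G.nx x) → ∀ y ∈ G.L (-1), (φ y).1 ≠ x.1) := by
  have R := h.rows
  obtain ⟨n1, n2, -⟩ := R.nx_mem hx
  obtain ⟨a1, a2, -⟩ := an0 h hx
  obtain ⟨b1, b2, -⟩ := an0 h n1
  constructor
  · intro n
    have m := (h.sv.vf.mono' hx (h.sv.pr _) n1 (h.sv.pr _) (by omega)).1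
    rw [a2, b2] at m
    exact sv_und h.sv hφ (j := 0) (by simpa using a1) hx (by rw [a2])
      (by rw [b2]; exact lt_of_le_of_ne m fun o => n (R.inj a1 b1 o))
  · intro e y hy o
    obtain ⟨c1, c2, c3⟩ := sv_phi h.sv hφ hy
    rw [orb_eq o, R.nx_tr _ hx, h.sv.vf.atr, ← e] at c3
    rw [orb_eq o, h.sv.vf.atr] at c2
    omega

end Pool.Agent.P.MP_08fd93_co.FS2
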