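import Pool.Agent.P.MP_08fd93_co.FA.F1

/-! Two flows around one period: the definitions. -/

set_option autoImplicit false

namespace Pool.Agent.P.MP_08fd93_co.FS2

open OV FN FK FL FZ FA

variable {J : Type}

/-- The source `s`, the neutral pin `p` and the sink `t` of a row accept the arrivals `a`, `b`. -/
def Opt (F : FD J) (a b s p t : Vx J) : Prop :=
  s.1 ≠ p.1 ∧ s.1 ≠ t.1 ∧ ((a.1 = p.1 ∧ b.1 = t.1) ∨ (b.1 = p.1 ∧ a.1 = t.1) ∨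
    (a.1 = t.1 ∧ b.1 = t.1 ∧ F.nx s = t ∧ p = F.nx t))

/-- Two flows through all rows of one period. -/
structure CY (F : FD J) (φ : Vx J → Vx J) (q : ℤ) (s p t : ℕ → Vx J) : Prop where
  ls : ∀ k : ℕ, (k : ℤ) < q → Lv F q k (s k)
  lp : ∀ k : ℕ, (k : ℤ) < q → Lv F q k (p k)
  lt : ∀ k : ℕ, (k : ℤ) < q → Lv F q k (t k)
  op : ∀ k : ℕ, (k : ℤ) < q →
    Opt F (φ (s k)) (φ (p k)) (s (nk q k)) (p (nk q k)) (t (nk q k))

/-- The two orbits of `a` and `b` fill a fibre of the row `j`. -/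
def Fb (F : FD J) (φ : Vx J → Vx J) (j : ℤ) (a b : Vx J) : Prop :=
  a.1 ≠ b.1 ∧ (φ a).1 = (φ b).1 ∧ ∀ y ∈ F.L j, y.1 ≠ a.1 → y.1 ≠ b.1 → (φ y).1 ≠ (φ a).1

end Pool.Agent.P.MP_08fd93_co.FS2
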