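import Pool.Agent.P.MP_08fd93_co.FS2.HH0

/-! Two flows around one period: the choice of the pins row by row. -/

set_option autoImplicit false

namespace Pool.Agent.P.MP_08fd93_co.FS2

open OV FN FK FL FZ FA

variable {J : Type} {F : FD J} {X : XD J} {Pr : Set (Vx J)} {φ : Vx J → Vx J} {b : ℤ × ℤ}
  {j : ℤ} {x y : Vx J}

theorem opt_l {s : Vx J} (h1 : s.1 ≠ x.1) (h2 : s.1 ≠ y.1) : Opt F x y s x y :=
  ⟨h1, h2, Or.inl ⟨rfl, rfl⟩⟩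

theorem opt_r {s : Vx J} (h1 : s.1 ≠ x.1) (h2 : s.1 ≠ y.1) : Opt F x y s y x :=
  ⟨h2, h1, Or.inr (Or.inl ⟨rfl, rfl⟩)⟩

variable (H : LB F X Pr φ b)
include H

theorem near_ne (hx : x ∈ F.L j) (hy : y ∈ F.L j) (l1 : F.ρ x < F.ρ y) (l2 : F.ρ y ≤ F.ρ x + 2) :
    x.1 ≠ y.1 := fun e => by
  obtain ⟨k, -, q⟩ := same_cls H.lay hx hy e
  have := H.n3 j
  rcases le_or_gt k 0 with c | c <;> nlinarith

/-- both neighbours of a double arrival are pinned -/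
theorem opt_m (hx : x ∈ F.L j) (e : y.1 = x.1) : pv F x ∈ F.L j ∧ F.nx x ∈ F.L j ∧
    (pv F x).1 ≠ x.1 ∧ (F.nx x).1 ≠ x.1 ∧ Opt F x y (pv F x) (F.nx x) x := by
  obtain ⟨a1, a2, a3⟩ := pv_mem H.lay hx
  obtain ⟨b1, b2, -⟩ := H.lay.nx_mem hx
  have n1 := near_ne H a1 hx (by omega) (by omega)
  exact ⟨a1, b1, n1, (near_ne H hx b1 (by omega) (by omega)).symm,
    near_ne H a1 b1 (by omega) (by omega), n1, Or.inr (Or.inr ⟨rfl, e, a3, rfl⟩)⟩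

theorem up1 (hx : x ∈ F.L j) : φ x ∈ F.L (j + 1) := by
  have := H.ph.mem (H.lay.la hx)
  rwa [H.lay.lf _ _ hx] at this

/-- the invariant passes to the next row -/
theorem opt_step (hx : x ∈ F.L j) (hy : y ∈ F.L j) (n : ¬ Fb F φ j x y) :
    ∃ s ∈ F.L j, ∃ p ∈ F.L j, ∃ t ∈ F.L j, Opt F x y s p t ∧ ¬ Fb F φ (j + 1) (φ s) (φ p) := by
  by_contra c
  simp only [not_exists, not_and, not_not] at c
  have k1 := fun z hz h1 h2 => c z hz x hx y hy (opt_l h1 h2)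
  by_cases e : x.1 = y.1
  · obtain ⟨a, a', n1, n2, o⟩ := opt_m H hx e.symm
    have f1 := k1 _ a n1 (e ▸ n1)
    have f2 := k1 _ a' n2 (e ▸ n2)
    exact f1.2.2 _ (up1 H a') (c _ a _ a' _ hx o).1.symm f2.1 (f2.2.1.trans f1.2.1.symm)
  · obtain ⟨z, hz, z1, z2⟩ := H.off j x y
    have f1 := k1 z hz z1 z2
    have f2 := c z hz y hy x hx (opt_r z1 z2)
    refine n ⟨e, ?_, fun w hw w1 w2 => (k1 w hw w1 w2).1⟩
    by_contra q
    exact f1.2.2 _ (up1 H hy) f2.1.symm (fun r => q r.symm) f2.2.1.symm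

theorem pick1 {B : J → Prop} (hx : x ∈ F.L j) (hy : y ∈ F.L j) (bx : B x.1)
    (h : ∃ z ∈ F.L j, ¬ B z.1) :
    ∃ s ∈ F.L j, ∃ p ∈ F.L j, ∃ t ∈ F.L j, Opt F x y s p t ∧ (B s.1 ↔ ¬ B p.1) := by
  by_cases c : ∃ z ∈ F.L j, ¬ B z.1 ∧ z.1 ≠ y.1
  · obtain ⟨z, hz, z1, z2⟩ := c
    exact ⟨z, hz, x, hx, y, hy, opt_l (fun e => z1 (e ▸ bx)) z2,
      fun k => absurd k z1, fun k => absurd bx k⟩
  · obtain ⟨w, hw, w1⟩ := h
    obtain ⟨z, hz, z1, z2⟩ := H.off j x y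
    have e : w.1 = y.1 := not_not.1 fun k => c ⟨w, hw, w1, k⟩
    exact ⟨z, hz, y, hy, x, hx, opt_r z1 z2, fun _ => e ▸ w1,
      fun _ => not_not.1 fun k => c ⟨z, hz, k, z2⟩⟩

/-- exactly one pin in a proper part of the row -/
theorem opt_pick {B : J → Prop} (hx : x ∈ F.L j) (hy : y ∈ F.L j) (h : ∃ z ∈ F.L j, B z.1)
    (h' : ∃ z ∈ F.L j, ¬ B z.1) :
    ∃ s ∈ F.L j, ∃ p ∈ F.L j, ∃ t ∈ F.L j, Opt F x y s p t ∧ (B s.1 ↔ ¬ B p.1) := by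
  by_cases c : B x.1
  · exact pick1 H hx hy c h'
  · obtain ⟨z, hz, k⟩ := h
    obtain ⟨s, hs, p, hp, t, ht, o, e⟩ := pick1 H (B := fun i => ¬ B i) hx hy c ⟨z, hz, not_not.2 k⟩
    exact ⟨s, hs, p, hp, t, ht, o, by tauto⟩

/-- two pins under one orbit if the row lies under two orbits -/
theorem opt_two {i i' : J} (hx : x ∈ F.L j) (hy : y ∈ F.L j) (n : ¬ Fb F φ j x y)
    (w : ∀ z ∈ F.L j, (φ z).1 = i ∨ (φ z).1 = i') :
    ∃ s ∈ F.L j, ∃ p ∈ F.L j, ∃ t ∈ F.L j, Opt F x y s p t ∧ (φ s).1 = (φ p).1 := by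
  by_contra c
  simp only [not_exists, not_and] at c
  have k1 := fun z hz h1 h2 => c z hz x hx y hy (opt_l h1 h2)
  have tri : ∀ u ∈ F.L j, ∀ u' ∈ F.L j, ∀ z ∈ F.L j, (φ z).1 ≠ (φ u).1 → (φ z).1 ≠ (φ u').1 →
      (φ u).1 = (φ u').1 := fun u a u' a' z hz n1 n2 => by
    rcases w z hz with e | e
    · exact ((w u a).resolve_left fun r => n1 (e.trans r.symm)).trans
        ((w u' a').resolve_left fun r => n2 (e.trans r.symm)).symm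
    · exact ((w u a).resolve_right fun r => n1 (e.trans r.symm)).trans
        ((w u' a').resolve_right fun r => n2 (e.trans r.symm)).symm
  by_cases e : x.1 = y.1
  · obtain ⟨a, a', n1, n2, o⟩ := opt_m H hx e.symm
    exact c _ a _ a' _ hx o (tri _ a _ a' x hx (fun r => k1 _ a n1 (e ▸ n1) r.symm)
      fun r => k1 _ a' n2 (e ▸ n2) r.symm)
  · obtain ⟨z, hz, z1, z2⟩ := H.off j x y
    exact n ⟨e, tri x hx y hy z hz (k1 z hz z1 z2) (c z hz y hy x hx (opt_r z1 z2)),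
      fun u hu u1 u2 => k1 u hu u1 u2⟩

/-- Two flows through one period whose pins on the row zero are `d` and `d1`. -/
theorem tower {d d1 : Vx J} (hd : d ∈ F.L 0) (hd1 : d1 ∈ F.L 0) (ne : d.1 ≠ d1.1)
    (Fne : ∃ y ∈ F.L (-1), (φ y).1 = d.1 ∨ (φ y).1 = d1.1)
    (k : (∃ y ∈ F.L (-1), (φ y).1 ≠ d.1 ∧ (φ y).1 ≠ d1.1) ∨ ¬ Fb F φ 1 (φ d) (φ d1)) :
    ∃ s p t, CY F φ (F.η b) s p t ∧ ((s 0 = d ∧ p 0 = d1) ∨ (s 0 = d1 ∧ p 0 = d)) := by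
  have b2 := H.b2
  have hF := H.lay
  obtain ⟨m, hm⟩ : ∃ m : ℕ, F.η b = m + 2 := ⟨(F.η b - 2).toNat, by omega⟩
  let Q : Prop := ∃ y ∈ F.L (-1), (φ y).1 ≠ d.1 ∧ (φ y).1 ≠ d1.1
  let B : Vx J → Prop := fun y => (φ y).1 = d.1 ∨ (φ y).1 = d1.1
  let I : ℕ → Vx J × Vx J × Vx J → Prop := fun i z => z.1 ∈ F.L (i + 1 : ℕ) ∧
    z.2.1 ∈ F.L (i + 1 : ℕ) ∧ z.2.2 ∈ F.L (i + 1 : ℕ) ∧
    (i < m → Q ∨ ¬ Fb F φ (i + 1 + 1 : ℕ) (φ z.1) (φ z.2.1)) ∧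
    (i = m → (B z.1 ↔ ¬ B z.2.1) ∨ (B z.1 ∧ (φ z.1).1 = (φ z.2.1).1))
  have step : ∀ (i : ℕ) (x y : Vx J), x ∈ F.L (i + 1 : ℕ) → y ∈ F.L (i + 1 : ℕ) →
      (i ≤ m → Q ∨ ¬ Fb F φ (i + 1 : ℕ) x y) → ∃ z, I i z ∧ Opt F x y z.1 z.2.1 z.2.2 := by
    intro i x y hx hy h
    rcases lt_trichotomy i m with l | l | l
    · rcases h l.le with q | q
      · obtain ⟨z, hz, z1, z2⟩ := H.off (i + 1 : ℕ) x y
        exact ⟨(z, x, y), ⟨hz, hx, hy, fun _ => Or.inl q, fun e => absurd e l.ne⟩, opt_l z1 z2⟩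
      · obtain ⟨s, hs, p, hp, t, ht, o, n⟩ := opt_step H hx hy q
        exact ⟨(s, p, t), ⟨hs, hp, ht, fun _ => Or.inr (by exact_mod_cast n),
          fun e => absurd e l.ne⟩, o⟩
    · subst l
      have tb : ∀ y ∈ F.L (-1), (φ (tr b y)).1 = (φ y).1 := fun y hy => by
        rw [H.ph.eqv _ _ (hF.la hy)]
        rfl
      by_cases q : Q
      · obtain ⟨u, hu, u1⟩ := Fne
        obtain ⟨w, hw, w1⟩ := q
        let B' : J → Prop := fun c => ∃ y ∈ F.LA, y.1 = c ∧ B y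
        have bb : ∀ y ∈ F.LA, B' y.1 ↔ B y := fun y hy =>
          ⟨fun ⟨z, hz, e, r⟩ => by simpa only [B, H.ph.fst hz e] using r, fun r => ⟨y, hy, rfl, r⟩⟩
        obtain ⟨s, hs, p, hp, t, ht, o, n⟩ := opt_pick H (B := B') hx hy
          ⟨_, H.last hm hu, u, hF.la hu, rfl, u1⟩
          ⟨_, H.last hm hw, fun r => ((bb w (hF.la hw)).1 r).elim w1.1 w1.2⟩
        rw [bb s (hF.la hs), bb p (hF.la hp)] at n
        exact ⟨(s, p, t), ⟨hs, hp, ht, fun e => absurd e (lt_irrefl _), fun _ => Or.inl n⟩, o⟩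
      · have w : ∀ z ∈ F.L (i + 1 : ℕ), B z := fun z hz => by
          have a := H.last' hm hz
          have e : (φ (tr (-b) z)).1 = (φ z).1 := by
            rw [H.ph.eqv _ _ (hF.la hz)]
            rfl
          by_contra r
          exact q ⟨_, a, e ▸ fun c => r (Or.inl c), e ▸ fun c => r (Or.inr c)⟩
        obtain ⟨s, hs, p, hp, t, ht, o, n⟩ := opt_two H hx hy ((h le_rfl).resolve_left q) w
        exact ⟨(s, p, t), ⟨hs, hp, ht, fun e => absurd e (lt_irrefl _),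
          fun _ => Or.inr ⟨w s hs, n⟩⟩, o⟩
    · obtain ⟨z, hz, z1, z2⟩ := H.off (i + 1 : ℕ) x y
      exact ⟨(z, x, y), ⟨hz, hx, hy, fun e => absurd e l.asymm, fun e => absurd e l.ne'⟩,
        opt_l z1 z2⟩
  obtain ⟨x0, i0, o0⟩ := step 0 _ _ (H.up (k := 0) hd) (H.up (k := 0) hd1) fun _ => k
  obtain ⟨g, e0, hg⟩ := seq_ex I (fun x y => Opt F (φ x.1) (φ x.2.1) y.1 y.2.1 y.2.2) x0 i0
    fun i x hx => step (i + 1) _ _ (H.up hx.1) (H.up hx.2.1) fun l => hx.2.2.2.1 l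
  subst e0
  obtain ⟨⟨s1, s2, -, -, s4⟩, -⟩ := hg m
  have lc : ∀ x ∈ F.L (m + 1 : ℕ), Lv F (F.η b) 0 (φ x) := fun x hx => by
    have := H.lv_phi (H.lv_l hx) (by push_cast; omega)
    rwa [nk_b (by push_cast; omega)] at this
  obtain ⟨s, p, t, lt, sp, o⟩ : ∃ s p t, Lv F (F.η b) 0 t ∧
      ((s = d ∧ p = d1) ∨ (s = d1 ∧ p = d)) ∧ Opt F (φ (g m).1) (φ (g m).2.1) s p t := by
    have l1 := lc _ s1
    have l2 := lc _ s2
    have A : ∀ {s p : Vx J}, s.1 ≠ p.1 → (φ (g m).1).1 = p.1 → (φ (g m).2.1).1 ≠ s.1 →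
        Opt F (φ (g m).1) (φ (g m).2.1) s p (φ (g m).2.1) :=
      fun n e n' => ⟨n, n'.symm, Or.inl ⟨e, rfl⟩⟩
    have A' : ∀ {s p : Vx J}, s.1 ≠ p.1 → (φ (g m).2.1).1 = p.1 → (φ (g m).1).1 ≠ s.1 →
        Opt F (φ (g m).1) (φ (g m).2.1) s p (φ (g m).1) :=
      fun n e n' => ⟨n, n'.symm, Or.inr (Or.inl ⟨e, rfl⟩)⟩
    rcases s4 rfl with r | ⟨r | r, e⟩
    · by_cases c : B (g m).1
      · have c' := not_or.1 (r.1 c)
        rcases c with c | c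
        exacts [⟨d1, d, _, l2, Or.inr ⟨rfl, rfl⟩, A ne.symm c c'.2⟩,
          ⟨d, d1, _, l2, Or.inl ⟨rfl, rfl⟩, A ne c c'.1⟩]
      · have c' := not_or.1 c
        rcases not_not.1 (fun n => c (r.2 n)) with a | a
        exacts [⟨d1, d, _, l1, Or.inr ⟨rfl, rfl⟩, A' ne.symm a c'.2⟩,
          ⟨d, d1, _, l1, Or.inl ⟨rfl, rfl⟩, A' ne a c'.1⟩]
    · exact ⟨d1, d, _, l2, Or.inr ⟨rfl, rfl⟩, A ne.symm r fun c => ne (r.symm.trans (e.trans c))⟩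
    · exact ⟨d, d1, _, l2, Or.inl ⟨rfl, rfl⟩, A ne r fun c => ne (c.symm.trans (e.symm.trans r))⟩
  refine ⟨fun i => Nat.casesOn i s fun i => (g i).1, fun i => Nat.casesOn i p fun i => (g i).2.1,
    fun i => Nat.casesOn i t fun i => (g i).2.2, ⟨?_, ?_, ?_, ?_⟩, sp⟩
  · rintro (_ | i) -
    exacts [H.lv_l (k := 0) (sp.elim (fun a => a.1 ▸ hd) fun a => a.1 ▸ hd1), H.lv_l (hg i).1.1]
  · rintro (_ | i) -
    exacts [H.lv_l (k := 0) (sp.elim (fun a => a.2 ▸ hd1) fun a => a.2 ▸ hd), H.lv_l (hg i).1.2.1]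
  · rintro (_ | i) -
    exacts [lt, H.lv_l (hg i).1.2.2.1]
  · rintro (_ | i) l
    · rw [nk_a (by omega)]
      rcases sp with ⟨rfl, rfl⟩ | ⟨rfl, rfl⟩
      · exact o0
      · exact ⟨o0.1, o0.2.1, o0.2.2.elim (fun a => Or.inr (Or.inl a)) fun a => a.elim Or.inl
          fun a => Or.inr (Or.inr ⟨a.2.1, a.1, a.2.2⟩)⟩
    · by_cases e : ((i + 1 : ℕ) : ℤ) + 1 < F.η b
      · rw [nk_a e]
        exact (hg i).2
      · rw [nk_b e]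
        obtain rfl : i = m := by omega
        exact o

end Pool.Agent.P.MP_08fd93_co.FS2
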