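import Pool.Agent.P.MP_08fd93_co.FS2.HH1
import Pool.Agent.P.MP_08fd93_co.FA.F2
import Pool.Agent.P.MP_08fd93_co.FA.Sp1
import Pool.Agent.P.MP_08fd93_co.FK.K7
import Pool.Agent.P.MP_08fd93_co.FD.G1

/-! A spike with hubs on both sides: the geometry of the first rows. -/

set_option autoImplicit false

namespace Pool.Agent.P.MP_08fd93_co.FS2

open OV FN FK FL FZ FA FR PkPrtP

variable {J : Type} {G : VD J} {φ : Vx J → Vx J} {v l r x y z : Vx J}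

section

variable (h : SR G v l r)
include h

theorem lr_lt : G.ρ l < G.ρ r := (side_lev h.sv h.hl.1 h.hr.1 h.hl.2 h.hr.2).2.2

/-- the children of the root lie between the side edges -/
theorem kid_iff (hx : x ∈ G.L 1) : G.an x = v ↔ G.ρ l < G.ρ x ∧ G.ρ x ≤ G.ρ r := by
  constructor
  · intro e
    exact ⟨(h.sv.isL_le h.hl.1 (h.rows.la hx) (e.trans h.hl.2.symm)).2,
      (h.sv.isR_ge h.hr.1 (h.rows.la hx) (e.trans h.hr.2.symm)).2⟩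
  · rintro ⟨a, b⟩
    obtain ⟨n1, n2, -⟩ := h.rows.nx_mem h.l1
    exact (h.sv.vf.btw n1 (h.sv.pr _) hx (h.sv.pr _) h.r1 (h.sv.pr _) (by omega) b
      (h.hl.2.trans h.hr.2.symm) (h.hl.2.symm ▸ h.vk)).trans h.hl.2

theorem ne_of_nf (n : ¬ Funnel G) : l.1 ≠ r.1 := fun e => n fun x hx => by
  have hF := h.sv.lay
  obtain ⟨k, -, q⟩ := same_cls hF h.l1 h.r1 e
  have q : G.ρ r = G.ρ l + k * G.nn 1 := q
  obtain ⟨t, t1, t2⟩ := window hF hx (G.ρ l + 1)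
  have t1 : G.ρ l + 1 ≤ G.ρ (tr (t • G.w) x) := t1
  have t2 : G.ρ (tr (t • G.w) x) < G.ρ l + 1 + G.nn 1 := t2
  have lt := lr_lt h
  have n3 := h.n3 1
  have := (kid_iff h (h.rows.rho_lw t hx).1).2 ⟨by omega, by
    rcases le_or_gt k 0 with c | c <;> nlinarith⟩
  rw [h.sv.vf.atr] at this
  exact (h.eK _).2 (by rw [← this]; rfl)

/-- the parent of a vertex of the row zero -/
theorem an_z (hx : x ∈ G.L 0) : G.an x ∈ G.L (-1) ∧ (FL G).an x = G.an x := by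
  have n : G.an x ∉ G.K := fun c => by
    have := h.odd c
    rw [(h.sv.vf.an_v hx (h.sv.pr _) c).2] at this
    exact absurd this (by decide)
  exact ⟨h.sv.vf.an_l hx (h.sv.pr _) n, (h.sv.vf.xo _ n).1⟩

theorem three (hx : x ∈ G.L 0) : (pv (FL G) x).1 ≠ x.1 ∧ (G.nx x).1 ≠ x.1 := by
  have hF := h.sv.lay
  have n3 : 3 ≤ (FL G).nn 0 := h.n3 0
  obtain ⟨a1, a2, -⟩ := pv_mem hF hx
  obtain ⟨b1, b2, -⟩ := hF.nx_mem hx
  have k1 := l_ne hF 0 (i := (FL G).ρ (pv (FL G) x)) (i' := (FL G).ρ x) (by omega) (by omega)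
  have k2 := l_ne hF 0 (i := (FL G).ρ x) (i' := (FL G).ρ ((FL G).nx x)) (by omega) (by omega)
  rw [hF.l_rho a1, hF.l_rho hx] at k1
  rw [hF.l_rho b1, hF.l_rho hx] at k2
  exact ⟨k1, k2.symm⟩

variable (hφ : PH (FL G) G.Pr φ)
include hφ

/-- an edge of the row zero whose ends have different parents has an edge under it -/
theorem fib_z (hx : x ∈ G.L 0) (n : G.an x ≠ G.an (G.nx x)) : φ (G.an x) = x := by
  have hF := h.sv.lay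
  obtain ⟨a1, a2⟩ := an_z h hx
  obtain ⟨n1, n2, -⟩ := h.rows.nx_mem hx
  obtain ⟨b1, b2⟩ := an_z h n1
  have e : (FL G).f (G.an x) + 1 = 0 := by rw [hF.lf _ _ a1]; rfl
  refine (hφ.uni _ (hF.la a1) x ⟨e ▸ hx, h.sv.pr _, by rw [a2], fun t ht _ lt => ?_⟩).symm
  rw [e] at ht
  have lt : G.ρ x < G.ρ t := lt
  have m1 := hF.amono 0 x hx _ n1 (h.sv.pr _) (h.sv.pr _) (show G.ρ _ ≤ G.ρ _ by omega)
  have m2 := hF.amono 0 _ n1 t ht (h.sv.pr _) (h.sv.pr _) (show G.ρ _ ≤ G.ρ _ by omega)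
  rw [a2, b2] at m1
  rw [b2] at m2
  exact (lt_of_le_of_ne m1 fun q => n (hF.inj a1 b1 q)).trans_le m2

theorem spanR (A : FD.AR G) (n : ¬ HR G) :
    φ (G.xl v) = r ∧ Span G r s(v, G.xl v) s(G.xl v, G.nx (G.xl v)) := by
  obtain ⟨z, y, m⟩ := FD.hubR_ex h.sv A h.hr.1 (fun t k => h.hr.2.symm ▸ (h.eK t).1 k) n
  have fr := h.rows.uw.lf _ _ h.r1
  have e : G.xr (G.an r) = G.xl v := by rw [h.hr.2, h.sp]
  have := m.span h.sv h.hr.1 (g := G.xl v) (by rw [fr]; exact h.u0.1) (by rw [e]) (e ▸ m.lo)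
  rw [e, h.hr.2] at this
  exact ⟨((h.sv.und_iff hφ h.hr.1.1 (h.rows.la h.u0.1)).1 this.2.1).1, this⟩

theorem spanL (A : FD.AR G) (n : ¬ HL G) : φ (pv (FL G) (G.xl v)) = l ∧
    Span G l s(v, G.xl v) s(pv (FL G) (G.xl v), G.nx (pv (FL G) (G.xl v))) := by
  obtain ⟨z, y, m⟩ := FD.hubL_ex h.sv A h.hl.1 (fun t k => h.hl.2.symm ▸ (h.eK t).1 k) n
  have fl := h.rows.uw.lf _ _ h.l1
  obtain ⟨a1, a2, -⟩ := pv_mem h.sv.lay h.u0.1
  have a2 : G.ρ (pv (FL G) (G.xl v)) = G.ρ (G.xl v) - 1 := a2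
  have hi := m.hi
  rw [h.hl.2] at hi
  have := m.span h.sv h.hl.1 (g := pv (FL G) (G.xl v)) (by rw [fl]; exact a1) (by omega)
    (by rw [h.hl.2]; omega)
  rw [h.hl.2] at this
  exact ⟨((h.sv.und_iff hφ h.hl.1.1 (h.rows.la a1)).1 this.2.1).1, this⟩

/-- a child of the root has a child -/
theorem phi_ne : φ l ≠ φ r := by
  intro e
  have hF := h.sv.lay
  obtain ⟨n, m⟩ := h.acy _ (h.rows.la h.u0.1)
  obtain ⟨a, q⟩ := h.k_tr m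
  rcases n with _ | n
  · exact h.sv.vf.l_nk (an_z h h.u0.1).1 m
  rw [Function.iterate_succ_apply'] at q
  have y1 := hF.la (h.an_lev h.u0.1 n)
  generalize (FL G).an^[n] (G.xl v) = y at q y1
  have y2 := (hF.la_tr (-a) y).2 y1
  have q2 : G.an ((FL G).an (tr (-a) y)) = v := by
    rw [hF.atr _ _ (h.sv.pr _), h.sv.vf.atr, q, tr_neg]
  generalize tr (-a) y = x at q2 y2
  have t1 := hF.anL _ x y2 (h.sv.pr _)
  have fx : (FL G).f x - 1 = 1 := by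
    rw [← (h.sv.vf.an_v t1 (h.sv.pr _) (q2.symm ▸ h.vk)).2, q2, h.fv]
  rw [fx] at t1
  obtain ⟨k1, k2⟩ := (kid_iff h t1).1 q2
  obtain ⟨u1, -, u2, -⟩ := hφ.und l (hF.la h.l1)
  obtain ⟨-, -, -, u3⟩ := hφ.und r (hF.la h.r1)
  rw [hF.lf _ _ h.l1] at u1
  rw [hF.lf _ _ h.r1, ← e] at u3
  have x2 : x ∈ (FL G).L (1 + 1) := by rwa [← show (FL G).f x = 1 + 1 by omega]
  by_cases c : G.ρ (φ l) < G.ρ x
  · exact absurd (u3 x x2 (h.sv.pr _) c) (not_lt.2 k2)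
  · exact absurd ((hF.amono _ x x2 _ u1 (h.sv.pr _) (h.sv.pr _) (not_lt.1 c)).trans u2)
      (not_le.2 k1)

/-- if the two side edges fill a fibre, they have a common end -/
theorem fb_end (k : Fb (FL G) φ 1 l r) : G.nx r = tr G.w l := by
  have hF := h.sv.lay
  have R := h.rows
  obtain ⟨ne, e, k⟩ := k
  obtain ⟨-, s1, s2⟩ := side_phi h.sv hφ h.hl.1 h.hr.1 h.hl.2 h.hr.2
  rw [h.fv] at s2
  obtain ⟨w1, w2⟩ := R.rho_lw 1 h.l1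
  rw [one_smul] at w1 w2
  obtain ⟨n1, n2, -⟩ := R.nx_mem h.r1
  have lt := lr_lt h
  have n3 := h.n3 1
  have rl : G.ρ r ≠ G.ρ (tr G.w l) := fun q => ne (by rw [R.inj h.r1 w1 q]; rfl)
  by_contra c
  have c : G.ρ (G.nx r) ≠ G.ρ (tr G.w l) := fun q => c (R.inj n1 w1 q)
  have k1 := l_ne hF 1 (i := G.ρ l) (i' := G.ρ (G.nx r)) (by omega) (show _ < _ + G.nn 1 by omega)
  have k2 := l_ne hF 1 (i := G.ρ r) (i' := G.ρ (G.nx r)) (by omega) (show _ < _ + G.nn 1 by omega)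
  rw [show (FL G).l 1 (G.ρ (G.nx r)) = G.nx r from R.l_rho n1] at k1 k2
  rw [show (FL G).l 1 (G.ρ l) = l from R.l_rho h.l1] at k1
  rw [show (FL G).l 1 (G.ρ r) = r from R.l_rho h.r1] at k2
  have up : ∀ x ∈ G.L 1, φ x ∈ G.L 2 := fun x hx => by
    have := hφ.mem (hF.la hx)
    rwa [hF.lf _ _ hx] at this
  obtain ⟨m, -, q⟩ := same_cls hF (up _ h.l1) (up _ h.r1) e
  have q : G.ρ (φ r) = G.ρ (φ l) + m * G.nn 2 := q
  have m1 : G.ρ (φ l) ≤ G.ρ (φ r) := hφ.mono hF h.l1 h.r1 lt.le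
  have m2 : G.ρ (φ r) ≤ G.ρ (φ (G.nx r)) := hφ.mono hF h.r1 n1 (show G.ρ _ ≤ G.ρ _ by omega)
  have m3 : G.ρ (φ (G.nx r)) ≤ G.ρ (φ (tr G.w l)) :=
    hφ.mono hF n1 w1 (show G.ρ _ ≤ G.ρ _ by omega)
  have m4 : G.ρ (φ l) ≠ G.ρ (φ r) := fun q => phi_ne h hφ (R.inj (up _ h.l1) (up _ h.r1) q)
  obtain ⟨z1, z2⟩ := R.rho_lw 1 (up _ h.l1)
  rw [one_smul] at z1 z2
  rw [hφ.eqv _ _ (hF.la h.l1)] at m3
  have n3' := h.n3 2
  refine k _ n1 k1.symm k2.symm ?_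
  have m5 := lt_of_le_of_ne m1 m4
  have m6 : 1 ≤ m := by
    by_contra c
    nlinarith
  rw [R.inj (up _ n1) z1 (le_antisymm m3 (by nlinarith))]
  rfl

/-- then one side edge covers two edges of the row zero -/
theorem two_rows (e : G.nx r = tr G.w l) (eR : φ (G.xl v) = r)
    (eL : φ (pv (FL G) (G.xl v)) = l) :
    φ (pv (FL G) (pv (FL G) (G.xl v))) = l ∨ φ (G.nx (G.xl v)) = r := by
  have hF := h.sv.lay
  have R := h.rows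
  obtain ⟨a1, a2, -⟩ := pv_mem hF h.u0.1
  obtain ⟨b1, b2, -⟩ := pv_mem hF a1
  have a2 : G.ρ (pv (FL G) (G.xl v)) = G.ρ (G.xl v) - 1 := a2
  have b2 : G.ρ (pv (FL G) (pv (FL G) (G.xl v))) = G.ρ (pv (FL G) (G.xl v)) - 1 := b2
  obtain ⟨c1, c2, -⟩ := R.nx_mem h.u0.1
  obtain ⟨d1, d2⟩ := R.rho_lw 1 b1
  obtain ⟨w1, w2⟩ := R.rho_lw 1 h.l1
  obtain ⟨n1, n2, -⟩ := R.nx_mem h.r1
  rw [one_smul] at d1 d2 w1 w2
  have n3 := h.n3 0
  have up : ∀ x ∈ G.L 0, φ x ∈ G.L 1 := fun x hx => by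
    have := hφ.mem (hF.la hx)
    rwa [hF.lf _ _ hx] at this
  have m1 : G.ρ (φ (G.xl v)) ≤ G.ρ (φ (G.nx (G.xl v))) :=
    hφ.mono hF h.u0.1 c1 (show G.ρ _ ≤ G.ρ _ by omega)
  have m2 : G.ρ (φ (G.nx (G.xl v))) ≤ G.ρ (φ (tr G.w (pv (FL G) (pv (FL G) (G.xl v))))) :=
    hφ.mono hF c1 d1 (show G.ρ _ ≤ G.ρ _ by omega)
  have m3 : G.ρ (φ (pv (FL G) (pv (FL G) (G.xl v)))) ≤ G.ρ (φ (pv (FL G) (G.xl v))) :=
    hφ.mono hF b1 a1 (show G.ρ _ ≤ G.ρ _ by omega)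
  obtain ⟨z1, z2⟩ := R.rho_lw 1 (up _ b1)
  rw [one_smul] at z1 z2
  rw [hφ.eqv _ _ (hF.la b1)] at m2
  rw [eR] at m1
  rw [eL] at m3
  rw [e] at n2
  by_cases c : G.ρ (φ (G.nx (G.xl v))) = G.ρ r
  exacts [Or.inr (R.inj (up _ c1) h.r1 c), Or.inl (R.inj (up _ b1) h.l1 (by omega))]

end

end Pool.Agent.P.MP_08fd93_co.FS2
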