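import Pool.Agent.P.MP_08fd93_co.FS2.HH2
import Pool.Agent.P.MP_08fd93_co.FS2.HH3
import Pool.Agent.P.MP_08fd93_co.FD.G3

/-! A spike with hubs on both sides: the case split. -/

set_option autoImplicit false

namespace Pool.Agent.P.MP_08fd93_co.FS2

open OV FN FK FL FZ FA FR PkPrtP

/-- The statement for all spikes with the property `P`. -/
def SrP (P : ∀ (J : Type), VD J → (Vx J → Vx J) → Vx J → Vx J → Vx J → Prop) : Prop :=
  ∀ (J : Type) [Fintype J] (G : VD J) (φ : Vx J → Vx J) (v l r : Vx J), SR G v l r →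
    PH (FL G) G.Pr φ → l.1 ≠ r.1 → φ (G.xl v) = r → φ (pv (FL G) (G.xl v)) = l →
    P J G φ v l r → ∃ c, Col1 G.Γ ∅ c

/-- An outer end of a side edge sees the root; nothing lies under the edges at the foot. -/
def S_K1 : Prop := SrP fun _ G φ v l r => (G.Γ.Adj v (G.nx r) ∨ G.Γ.Adj v l) ∧
  ∀ y ∈ G.L (-1), (φ y).1 ≠ (G.xl v).1 ∧ (φ y).1 ≠ (pv (FL G) (G.xl v)).1

/-- The side edges have a common end; everything lies under the edges at the foot. -/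
def S_D2 : Prop := SrP fun _ G φ v l r => G.nx r = tr G.w l ∧
  (φ (pv (FL G) (pv (FL G) (G.xl v))) = l ∨ φ (G.nx (G.xl v)) = r) ∧
  ∀ y ∈ G.L (-1), (φ y).1 = (G.xl v).1 ∨ (φ y).1 = (pv (FL G) (G.xl v)).1

variable {J : Type} {Γ : SimpleGraph (Vx J)} {η : ℤ × ℤ →+ ℤ} {f : Vx J → ℤ} {v l r x z p : Vx J}
  {an : Vx J → Vx J} {G : VD J} {φ : Vx J → Vx J}

/-- something lies under an edge at the foot -/
theorem hh_a [Fintype J] (h2 : S_D2) (h : SR G v l r) (hφ : PH (FL G) G.Pr φ)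
    (A : FD.AR G) (ne : l.1 ≠ r.1) (nR : ¬ HR G) (nL : ¬ HL G)
    (k : ∃ y ∈ G.L (-1), (φ y).1 = (pv (FL G) (G.xl v)).1 ∨ (φ y).1 = (G.xl v).1) :
    ∃ c, Col1 G.Γ ∅ c := by
  obtain ⟨b, B⟩ := lb_ex h.sv.lay hφ h.n3 h.rows.wp.ev
  obtain ⟨eR, sR⟩ := spanR h hφ A nR
  obtain ⟨eL, sL⟩ := spanL h hφ A nL
  have a1 := (pv_mem h.sv.lay h.u0.1).1
  by_cases c : (∃ y ∈ (FL G).L (-1), (φ y).1 ≠ (pv (FL G) (G.xl v)).1 ∧ (φ y).1 ≠ (G.xl v).1) ∨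
      ¬ Fb (FL G) φ 1 (φ (pv (FL G) (G.xl v))) (φ (G.xl v))
  · obtain ⟨s, p, t, C, p0⟩ := tower B a1 h.u0.1 (three h h.u0.1).1 k c
    have b2 : 2 ≤ (FL G).η b := B.b2
    have op := (C.op 0 (by omega)).2.2
    rw [nk_a (by omega)] at op
    have : l.1 = (p 1).1 ∨ r.1 = (p 1).1 := by
      rcases p0 with q | q <;> rw [q.1, q.2, eL, eR] at op <;> rcases op with o | o | o
      exacts [Or.inl o.1, Or.inr o.1, absurd (o.1.trans o.2.1.symm) ne, Or.inr o.1, Or.inl o.1,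
        absurd (o.2.1.trans o.1.symm) ne]
    rcases this with o | o
    · exact (C.skL h B a1 eL (by rw [eR]; exact ne.symm)
        (p0.imp (fun q => by rw [q.1, q.2]; exact ⟨rfl, rfl⟩) fun q => by
          rw [q.1, q.2]; exact ⟨rfl, rfl⟩) (Or.inl ⟨o, sL⟩)).col h hφ
    · exact (C.skR h B h.u0.1 eR (by rw [eL]; exact ne)
        (p0.symm.imp (fun q => by rw [q.1, q.2]; exact ⟨rfl, rfl⟩) fun q => by
          rw [q.1, q.2]; exact ⟨rfl, rfl⟩) (Or.inl ⟨o, sR⟩)).col h hφ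
  · rw [not_or, not_not, eL, eR] at c
    have e := fb_end h hφ c.2
    refine h2 J G φ v l r h hφ ne eR eL ⟨e, two_rows h hφ e eR eL, fun y hy => ?_⟩
    by_contra q
    exact c.1 ⟨y, hy, fun o => q (Or.inr o), fun o => q (Or.inl o)⟩

/-- an upper neighbour of the foot on the row -/
theorem up_adj (h : SR G v l r) (A : FD.AR G) (nR : ¬ HR G) (nL : ¬ HL G) (hz : z ∈ G.L 1)
    (e : G.Γ.Adj (G.xl v) z) (nk : G.an z ∉ G.K) : G.Γ.Adj v (G.nx r) ∨ G.Γ.Adj v l := by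
  have V := h.sv.vf
  have hb : Brg G.toFD 1 (G.xl v) z (G.T (G.an z)) := (t_empty nk).symm ▸ Brg.rung h.u0.1 hz e
  obtain ⟨c1, c2⟩ := h.sv.kid h.vk
  rw [h.fv] at c1
  obtain ⟨c3, c4⟩ := (kid_iff h c1).1 c2
  have nt : v ∉ G.T (G.an z) := by rw [t_empty nk]; exact id
  have cut : ∀ {x y : Vx J}, G.Lf 1 (G.xl v) z x → G.Rg 1 (G.xl v) z y → ∀ t ∈ G.S 1,
      G.Γ.Adj t x → ¬ G.Γ.Adj t y := fun a b t ht c d =>
    (V.ncv hb (Set.singleton_subset_iff.2 ht) (Set.finite_singleton t) (isConn_single t) a b).2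
      ⟨⟨t, rfl, c.symm⟩, ⟨t, rfl, d.symm⟩⟩
  by_cases c : G.ρ r < G.ρ z
  · obtain ⟨t, y, m⟩ := FD.hubR_ex h.sv A h.hr.1 (fun t k => h.hr.2.symm ▸ (h.eK t).1 k) nR
    have fr := h.rows.uw.lf _ _ h.r1
    have yr : G.Rg 1 (G.xl v) z y := Or.inl ⟨fr ▸ m.row, by
      have := m.lo
      rwa [h.hr.2, h.sp] at this⟩
    have zk := h.hr.2 ▸ m.zk
    rcases m.cell with o | o
    · rw [h.sv.bc_I h.hr.1.1] at o
      exact absurd m.zy (cut (Or.inr (Or.inr ⟨h.vk, h.fv, nt, by omega⟩)) yr t (fr ▸ o.1) zk)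
    rcases (h.sv.bc_Y h.hr.1.1).1 o with rfl | rfl
    exacts [absurd m.zy (FD.cut_adj V hb (Or.inr (Or.inl ⟨h.r1, c⟩)) yr), Or.inl zk.symm]
  · have c : G.ρ z ≤ G.ρ l := not_lt.1 fun q =>
      nk ((kid_iff h hz).2 ⟨q, not_lt.1 c⟩ ▸ h.vk)
    obtain ⟨t, y, m⟩ := FD.hubL_ex h.sv A h.hl.1 (fun t k => h.hl.2.symm ▸ (h.eK t).1 k) nL
    have fl := h.rows.uw.lf _ _ h.l1
    obtain ⟨n1, n2, -⟩ := h.rows.nx_mem h.l1
    have yl : G.Lf 1 (G.xl v) z y := Or.inl ⟨fl ▸ m.row, h.hl.2 ▸ m.hi⟩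
    have zk := h.hl.2 ▸ m.zk
    rcases m.cell with o | o
    · rw [h.sv.bc_I h.hl.1.1] at o
      exact absurd zk (cut yl (Or.inr (Or.inr ⟨h.vk, h.fv, nt, by omega⟩)) t (fl ▸ o.1) m.zy)
    rcases (h.sv.bc_Y h.hl.1.1).1 o with rfl | rfl
    exacts [Or.inr zk.symm,
      absurd m.zy.symm (FD.cut_adj V hb yl (Or.inr (Or.inl ⟨n1, by omega⟩)))]

theorem hh_ne [Fintype J] (h2 : S_D2) (D : SD1 Γ η f v an G) (A : FD.Rule Γ f v an)
    (nf : ¬ Funnel G) (nR : ¬ HR G) (nL : ¬ HL G)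
    (k : an (pv (FL G) (G.xl v)) ≠ an (G.xl v) ∨ an (G.xl v) ≠ an (G.nx (G.xl v))) :
    ∃ c, Col1 Γ ∅ c := by
  obtain ⟨l, r, h⟩ := D.sr
  obtain ⟨φ, hφ⟩ := ph_ex h.sv.lay fun j => ⟨_, h.sv.lay.l_mem j 0, h.sv.pr _⟩
  obtain ⟨a1, -, a3⟩ := pv_mem h.sv.lay h.u0.1
  rw [← D.H.eΓ]
  rw [← D.H.ea] at k
  refine hh_a h2 h hφ (A.ar D.H) (ne_of_nf h nf) nR nL ?_
  rcases k with k | k
  · exact ⟨_, (an_z h a1).1, Or.inl (congrArg Prod.fst (fib_z h hφ a1 (by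
      rwa [show G.nx (pv (FL G) (G.xl v)) = G.xl v from a3])))⟩
  · exact ⟨_, (an_z h h.u0.1).1, Or.inr (congrArg Prod.fst (fib_z h hφ h.u0.1 k))⟩

theorem hh_rule [Fintype J] (h2 : S_D2) (h3 : S_K1) (h4 : S_Free)
    (D : SD1 Γ η f v an G) (A : FD.Rule Γ f v an) (nf : ¬ Funnel G) (nR : ¬ HR G) (nL : ¬ HL G) :
    ∃ c, Col1 Γ ∅ c := by
  by_cases k : an (pv (FL G) (G.xl v)) ≠ an (G.xl v) ∨ an (G.xl v) ≠ an (G.nx (G.xl v))
  · exact hh_ne h2 D A nf nR nL k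
  rw [not_or, not_not, not_not] at k
  obtain ⟨l, r, h⟩ := D.sr
  have hF := h.sv.lay
  have R := h.rows
  have H := D.H
  obtain ⟨a1, a2, a3⟩ := pv_mem hF h.u0.1
  obtain ⟨n1, n2, -⟩ := R.nx_mem h.u0.1
  obtain ⟨t1, t2⟩ := three h h.u0.1
  by_cases o : ∀ x ∈ G.L 0, x = G.xl v ∨ G.Γ.Adj (G.xl v) x → ∀ t ∈ G.L (-1), G.Γ.Adj x t →
      t = an (G.xl v)
  · by_cases u : ∀ y ∈ G.L 1, ¬ G.Γ.Adj (G.xl v) y
    · have s := (H.foot0 D.R).1
      have B : FD.Back G (G.xl v) (an (G.xl v)) := ⟨u, o⟩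
      obtain ⟨f', -, R'⟩ := FD.exists_rh D.R.d1 (G.xl v)
      obtain ⟨an', G', D'⟩ := sd1_ex D.hJ D.hG D.hN D.ev R' (FD.back_spike H D.R s B)
      exact h4 J Γ η f' _ an' G' D' (Or.inl (FD.back_free H D.R s B R' D'.H).1)
    simp only [not_forall, not_not] at u
    obtain ⟨z, hz, e⟩ := u
    obtain ⟨φ, hφ⟩ := ph_ex hF fun j => ⟨_, hF.l_mem j 0, h.sv.pr _⟩
    have A' := A.ar H
    rw [← H.eΓ]
    refine h3 J G φ v l r h hφ (ne_of_nf h nf) (spanR h hφ A' nR).1 (spanL h hφ A' nL).1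
      ⟨up_adj h A' nR nL hz e fun c => (H.pure_iff D.A hz).1 c _ h.u0.1 (H.eΓ ▸ e.symm),
        fun y hy => ?_⟩
    have key : ∀ x ∈ G.L 0, G.an x = G.an (G.nx x) → (φ y).1 ≠ x.1 := fun x hx e c => by
      have yl := hF.la hy
      have y2 := (hF.la_tr (x.2 - (φ y).2) y).2 yl
      obtain ⟨-, -, u2, u3⟩ := hφ.und _ y2
      have l2 := hφ.lev hF y2
      rw [hφ.eqv _ _ yl, ← FK.eq_tr c] at u2 u3 l2
      obtain ⟨m1, m2, -⟩ := R.nx_mem hx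
      have := u3 (G.nx x) (by rw [← l2, hF.lf _ _ hx]; exact m1) (h.sv.pr _)
        (show G.ρ _ < G.ρ _ by omega)
      rw [(an_z h m1).2, ← e] at this
      rw [(an_z h hx).2] at u2
      exact absurd this (not_lt.2 u2)
    rw [← H.ea] at k
    exact ⟨key _ h.u0.1 k.2, key _ a1 (by
      rw [show G.nx (pv (FL G) (G.xl v)) = G.xl v from a3, k.1])⟩
  simp only [not_forall] at o
  obtain ⟨x, hx, o, t, ht, e, ne⟩ := o
  have A' := an1_upa D.R D.A (H.eΓ ▸ e) (by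
    rw [← H.ef, R.uw.lf _ _ ht, R.uw.lf _ _ hx]; rfl)
  have fx := R.uw.lf _ _ hx
  have ft := R.uw.lf _ _ ht
  refine hh_ne h2 (D.chg A') (A.upa D.R fun k k1 k2 k3 => ?_) (fun q => nf fun y hy => ?_) nR nL ?_
  · have hk := (h.eK k).2 k1
    have od := h.odd hk
    have fk := R.uw.lf _ _ (h.sv.foot hk).1.1
    rw [← H.eΓ] at k2 k3
    rcases h.k_nb hk (R.la hx) k2.symm with c | c
    · rcases h.k_nb hk (R.la ht) k3.symm with c' | c'
      · rw [c', ← c] at ft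
        omega
      · rw [← c] at fk
        omega
    · rw [← c, fx] at od
      exact absurd od (by decide)
  · have := q y hy
    rwa [show (chg G (upa an x t)).an y = an y from upa_ne fun c => by
      have e1 := R.wp.per (y.2 - x.2) x
      rw [← orb_eq c, R.uw.lf _ _ hy, fx] at e1
      obtain ⟨m, hm⟩ := R.wp.ev (y.2 - x.2)
      omega, ← H.ea] at this
  show upa an x t (pv (FL G) (G.xl v)) ≠ upa an x t (G.xl v) ∨
    upa an x t (G.xl v) ≠ upa an x t (G.nx (G.xl v))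
  rcases o with rfl | o
  · right
    rw [upa_self, upa_ne t2, ← k.2]
    exact ne
  rcases (R.adj_iff h.u0.1 hx).1 o with c | c
  · obtain rfl : x = G.nx (G.xl v) := R.inj hx n1 (by omega)
    right
    rw [upa_self, upa_ne t2.symm]
    exact fun q => ne q.symm
  · obtain rfl : x = pv (FL G) (G.xl v) := R.inj hx a1 (by
      have a2 : G.ρ (pv (FL G) (G.xl v)) = G.ρ (G.xl v) - 1 := a2
      omega)
    left
    rw [upa_self, upa_ne t1.symm]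
    exact ne

theorem hh_of' (h2 : S_D2) (h3 : S_K1) (h4 : S_Free) : S_HH := by
  intro J _ Γ η f v an G D k
  obtain ⟨an', A', r, -⟩ := FD.exists_rule D.R D.A
  refine hh_rule h2 h3 h4 (D.chg A') r (fun q => k.1 fun y hy => ?_) k.2.1 k.2.2
  exact (D.H.pure_iff D.A hy).2 (((D.chg A').H.pure_iff A' hy).1 (q y hy))

end Pool.Agent.P.MP_08fd93_co.FS2
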